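import Pool.Agent.H653.Br.Top

set_option autoImplicit false

namespace Pool.Agent.H653.Br

open Set
open Pool.Agent.H40.Bsig (sp sp_inj le_sp dec dec_le cons Sat std Bdd Fm ops cod ops_cod ex_use)

/-- The columns with the numbers `dec b j`. -/
def cols (P : X) (b : ℕ) : ℕ → Set ℕ := fun j => {x | P (dec b j) x = true}

/-- The truth of the bounded formula with the code `c`. -/
def TS (P : X) (c : ℕ) (u : ℕ → ℕ) (b : ℕ) : Prop := ∃ θ, ops c = .inl θ ∧ Bdd θ ∧ Sat std θ u (cols P b)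

theorem TS_cod {θ : Fm} (hθ : Bdd θ) (P : X) (u : ℕ → ℕ) (b : ℕ) :
    TS P (cod (.inl θ)) u b ↔ Sat std θ u (cols P b) := by
  unfold TS
  rw [ops_cod]
  exact ⟨fun ⟨θ', h1, _, h2⟩ => by rw [Sum.inl.inj h1]; exact h2, fun h => ⟨θ, rfl, hθ, h⟩⟩

theorem TS_loc (c : ℕ) (u : ℕ → ℕ) (b : ℕ) : Loc fun P => TS P c u b := by
  by_cases h : ∃ θ, ops c = .inl θ ∧ Bdd θ
  · obtain ⟨θ, h1, h2⟩ := h
    obtain ⟨N, hN⟩ := ex_use h2 u
    refine ⟨max (b + 1) N, fun P P' e ⟨θ', h3, h4, h5⟩ => ⟨θ', h3, h4, ?_⟩⟩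
    obtain rfl : θ = θ' := Sum.inl.inj (h1.symm.trans h3)
    refine (hN _ _ fun i x hx => ?_).1 h5
    show P (dec b i) x = true ↔ P' (dec b i) x = true
    rw [e (dec b i) (lt_max_of_lt_left (Nat.lt_succ_of_le (dec_le i b))) x (lt_max_of_lt_right hx)]
  · exact ⟨0, fun P P' _ ⟨θ', h3, h4, _⟩ => absurd ⟨θ', h3, h4⟩ h⟩

theorem TS_col {P P' : X} {b : ℕ} (h : ∀ j ≤ b, P j = P' j) (c : ℕ) (u : ℕ → ℕ) : TS P c u b ↔ TS P' c u b := by
  have : cols P b = cols P' b := by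
    funext j
    simp only [cols, h (dec b j) (dec_le j b)]
  simp only [TS, this]

/-- The binary number of `Y ∩ [0, d)`. -/
noncomputable def bq (d : ℕ) (Y : ℕ → Bool) : ℕ := Nat.ofBits fun i : Fin d => Y i

theorem bq_lt (d : ℕ) (Y : ℕ → Bool) : bq d Y < 2 ^ d := Nat.ofBits_lt_two_pow _

theorem bq_test {d x : ℕ} (Y : ℕ → Bool) (h : x < d) : (bq d Y).testBit x = Y x := by
  rw [bq, Nat.testBit_ofBits_lt _ _ h]

theorem bq_congr {d : ℕ} {Y Y' : ℕ → Bool} (h : ∀ x < d, Y x = Y' x) : bq d Y = bq d Y' := by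
  unfold bq
  congr 1
  funext i
  exact h i i.2

theorem bq_uniq {d s : ℕ} {Y : ℕ → Bool} (h1 : s < 2 ^ d) (h2 : ∀ x < d, s.testBit x = Y x) : bq d Y = s := by
  refine Nat.eq_of_testBit_eq fun x => ?_
  rcases lt_or_ge x d with hx | hx
  · rw [bq_test Y hx, h2 x hx]
  · rw [bq, Nat.testBit_ofBits_ge _ _ hx]
    exact (Nat.testBit_lt_two_pow (h1.trans_le (Nat.pow_le_pow_right two_pos hx))).symm

/-- All initial segments of `Y` of length at most `d` are in the tree `T`. -/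
def Pth (T : ℕ → Bool) (d : ℕ) (Y : ℕ → Bool) : Prop := ∀ e ≤ d, T (sp e (bq e Y)) = true

theorem Pth.mono {T : ℕ → Bool} {d d' : ℕ} {Y : ℕ → Bool} (h : Pth T d Y) (e : d' ≤ d) : Pth T d' Y :=
  fun x hx => h x (hx.trans e)

theorem sp_lt {e d : ℕ} {Y : ℕ → Bool} (h : e ≤ d) : sp e (bq e Y) < sp d (2 ^ d) + 1 := by
  have h1 := (bq_lt e Y).le.trans (Nat.pow_le_pow_right two_pos h)
  unfold sp
  have : (e + bq e Y) * (e + bq e Y) ≤ (d + 2 ^ d) * (d + 2 ^ d) := by gcongr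
  omega

theorem Pth_congr {T T' : ℕ → Bool} {d : ℕ} {Y : ℕ → Bool} (h : ∀ x < sp d (2 ^ d) + 1, T x = T' x)
    (a : Pth T d Y) : Pth T' d Y := fun e he => by
  rw [← h _ (sp_lt he)]
  exact a e he

theorem exPth_loc (c d : ℕ) : Loc fun P => ∃ Y, Pth (P c) d Y :=
  ⟨max (c + 1) (sp d (2 ^ d) + 1), fun _ _ e ⟨Y, hY⟩ => ⟨Y, Pth_congr (fun x hx =>
    e c (lt_max_of_lt_left c.lt_succ_self) x (lt_max_of_lt_right hx)) hY⟩⟩

theorem Pth_loc (c i d : ℕ) : Loc fun P => Pth (P c) d (P i) := by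
  refine ⟨max (max (c + 1) (sp d (2 ^ d) + 1)) (max (i + 1) d), fun P P' e h => ?_⟩
  have h1 : Pth (P' c) d (P i) := Pth_congr (fun x hx => e c (lt_max_of_lt_left (lt_max_of_lt_left
    c.lt_succ_self)) x (lt_max_of_lt_left (lt_max_of_lt_right hx))) h
  intro x hx
  rw [← bq_congr fun y hy => e i (lt_max_of_lt_right (lt_max_of_lt_left i.lt_succ_self)) y
    (lt_max_of_lt_right (lt_max_of_lt_right (hy.trans_le hx)))]
  exact h1 x hx

theorem Pth_loc' (T : ℕ → Bool) (i d : ℕ) : Loc fun P => Pth T d (P i) := by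
  refine ⟨max (i + 1) d, fun P P' e h x hx => ?_⟩
  rw [← bq_congr fun y hy => e i (lt_max_of_lt_left i.lt_succ_self) y (lt_max_of_lt_right (hy.trans_le hx))]
  exact h x hx

/-- `θ (w, x)` for the formula with code `c` and the parameters given by `ab`. -/
def Th (P : X) (c ab w x : ℕ) : Prop := TS P c (cons w (cons x (dec ab.unpair.1))) ab.unpair.2

theorem Th_loc (c ab w x : ℕ) : Loc fun P => Th P c ab w x := TS_loc _ _ _

theorem Th_col {P P' : X} {ab : ℕ} (h : ∀ j ≤ ab, P j = P' j) (c w x : ℕ) : Th P c ab w x ↔ Th P' c ab w x :=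
  TS_col (fun j hj => h j (hj.trans (Nat.unpair_right_le ab))) _ _

/-- The conditions for the column `i + 1`. -/
def Ok (P : X) (i n : ℕ) (Z : ℕ → Bool) : Prop :=
  (i.unpair.1 = 0 → (∀ x ≤ n, ∀ w ≤ n, ∀ w' ≤ n,
      Th P i.unpair.2.unpair.1 i.unpair.2.unpair.2.unpair.2 w x →
        Th P i.unpair.2.unpair.2.unpair.1 i.unpair.2.unpair.2.unpair.2 w' x) →
    ∀ x ≤ n, ∀ w ≤ n, (Th P i.unpair.2.unpair.1 i.unpair.2.unpair.2.unpair.2 w x → Z x = true) ∧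
      (Z x = true → Th P i.unpair.2.unpair.2.unpair.1 i.unpair.2.unpair.2.unpair.2 w x)) ∧
  (i.unpair.1 = 1 → (∃ Y, Pth (P i.unpair.2) n Y) → Pth (P i.unpair.2) n Z)

theorem Ok_col {P P' : X} {i : ℕ} (h : ∀ j ≤ i, P j = P' j) {n : ℕ} {Z : ℕ → Bool} (a : Ok P i n Z) :
    Ok P' i n Z := by
  have e1 : i.unpair.2.unpair.2.unpair.2 ≤ i :=
    (Nat.unpair_right_le _).trans ((Nat.unpair_right_le _).trans (Nat.unpair_right_le _))
  have h1 := fun c w x => Th_col (P := P) (P' := P') (fun j hj => h j (hj.trans e1)) c w x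
  have h2 := h _ (Nat.unpair_right_le i)
  unfold Ok at a ⊢
  simp only [← h1, ← h2]
  exact a

theorem sepEx (Θ Ψ : ℕ → ℕ → Prop) : ∃ Z : ℕ → Bool, ∀ n,
    (∀ x ≤ n, ∀ w ≤ n, ∀ w' ≤ n, Θ w x → Ψ w' x) → ∀ x ≤ n, ∀ w ≤ n, (Θ w x → Z x = true) ∧
      (Z x = true → Ψ w x) := by
  classical
  refine ⟨fun x => decide (∃ n, (∀ x ≤ n, ∀ w ≤ n, ∀ w' ≤ n, Θ w x → Ψ w' x) ∧ x ≤ n ∧ ∃ w ≤ n, Θ w x),
    fun n hn x hx w hw => ⟨fun h => decide_eq_true ⟨n, hn, hx, w, hw, h⟩, fun h => ?_⟩⟩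
  obtain ⟨n', hn', hx', w', hw', h'⟩ := of_decide_eq_true h
  rcases le_total n n' with e | e
  · exact hn' x hx' w' hw' w (hw.trans e) h'
  · exact hn x hx w' (hw'.trans e) w hw h'

theorem pathEx (T : ℕ → Bool) : ∃ Z : ℕ → Bool, ∀ n, (∃ Y, Pth T n Y) → Pth T n Z := by
  classical
  by_cases h : ∀ n, ∃ Y, Pth T n Y
  · obtain ⟨P, hP⟩ := cpt (C := fun n => {P | Pth T n (P 0)}) (fun n => (Pth_loc' T 0 n).isClosed)
      (fun n _ hP => Pth.mono hP n.le_succ) fun n => by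
        obtain ⟨Y, hY⟩ := h n
        exact ⟨fun _ => Y, hY⟩
    exact ⟨P 0, fun n _ => hP n⟩
  · push Not at h
    have hs := Nat.find_spec h
    have hm := fun m => Nat.find_min h (m := m)
    set n₀ := Nat.find h
    have hlt : ∀ n Y, Pth T n Y → n < n₀ := fun n Y hY => by
      by_contra e
      exact hs Y (hY.mono (not_lt.1 e))
    rcases n₀ with _ | k
    · exact ⟨fun _ => true, fun n ⟨Y, hY⟩ => absurd (hlt n Y hY) (Nat.not_lt_zero _)⟩
    · have := hm k k.lt_succ_self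
      push Not at this
      obtain ⟨Y, hY⟩ := this
      exact ⟨Y, fun n ⟨Y', hY'⟩ => hY.mono (Nat.lt_succ_iff.1 (hlt n Y' hY'))⟩

theorem okEx (P : X) (i : ℕ) : ∃ Z : ℕ → Bool, ∀ n, Ok P i n Z := by
  by_cases h0 : i.unpair.1 = 0
  · obtain ⟨Z, hZ⟩ := sepEx (Th P i.unpair.2.unpair.1 i.unpair.2.unpair.2.unpair.2)
      (Th P i.unpair.2.unpair.2.unpair.1 i.unpair.2.unpair.2.unpair.2)
    exact ⟨Z, fun n => ⟨fun _ => hZ n, fun h => by omega⟩⟩
  by_cases h1 : i.unpair.1 = 1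
  · obtain ⟨Z, hZ⟩ := pathEx (P i.unpair.2)
    exact ⟨Z, fun n => ⟨fun h => absurd h h0, fun _ => hZ n⟩⟩
  · exact ⟨fun _ => true, fun n => ⟨fun h => absurd h h0, fun h => absurd h h1⟩⟩

/-- The closure conditions. -/
def Cc : Set X := {P | ∀ i n, Ok P i n (P (i + 1))}

theorem Ok_loc (i n : ℕ) : Loc fun P => Ok P i n (P (i + 1)) := by
  refine Loc.and (Loc.imp (Loc.const _) (Loc.imp ?_ ?_)) (Loc.imp (Loc.const _)
    (Loc.imp (exPth_loc _ _) (Pth_loc _ _ _)))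
  · exact Loc.balle n fun x _ => Loc.balle n fun w _ => Loc.balle n fun w' _ =>
      (Th_loc _ _ _ _).imp (Th_loc _ _ _ _)
  · exact Loc.balle n fun x _ => Loc.balle n fun w _ => ((Th_loc _ _ _ _).imp (Loc.at' _ _)).and
      ((Loc.at' _ _).imp (Th_loc _ _ _ _))

theorem isClosed_Cc : IsClosed Cc := by
  have : Cc = ⋂ i, ⋂ n, {P | Ok P i n (P (i + 1))} := by
    ext P
    simp [Cc]
  rw [this]
  exact isClosed_iInter fun i => isClosed_iInter fun n => (Ok_loc i n).isClosed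

theorem exCc (G : ℕ → ℕ → Prop) : ∃ P ∈ Cc, ∀ a b, a < b → (P 0 (sp a b) = true ↔ G a b) := by
  classical
  choose Z hZ using okEx
  let F : ℕ → X := fun n => Nat.rec (fun _ x => decide (∃ a b, x = sp a b ∧ G a b))
    (fun i P => Function.update P (i + 1) (Z P i)) n
  have hF : ∀ i, ∀ j ≤ i, F i j = F j j := fun i => by
    induction i with
    | zero => intro j hj; obtain rfl := Nat.le_zero.1 hj; rfl
    | succ i ih =>
      intro j hj
      rcases Nat.le_succ_iff.1 hj with h | rfl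
      · rw [← ih j h]
        exact Function.update_of_ne (by omega) _ _
      · rfl
  refine ⟨fun j => F j j, fun i n => ?_, fun a b _ => ?_⟩
  · have : F (i + 1) (i + 1) = Z (F i) i := Function.update_self _ _ _
    show Ok (fun j => F j j) i n (F (i + 1) (i + 1))
    rw [this]
    exact Ok_col (hF i) (hZ (F i) i n)
  · show decide (∃ a' b', sp a b = sp a' b' ∧ G a' b') = true ↔ _
    rw [decide_eq_true_iff]
    refine ⟨fun ⟨a', b', h1, h2⟩ => ?_, fun h => ⟨a, b, rfl, h⟩⟩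
    obtain ⟨rfl, rfl⟩ := sp_inj h1
    exact h2

/-- The facts that are settled by the construction. -/
def V (q w : ℕ) (P : X) : Prop :=
  (q.unpair.1 = 0 ∧ ∃ w' ≤ w, TS P q.unpair.2.unpair.1 (cons w' (dec q.unpair.2.unpair.2.unpair.1))
    q.unpair.2.unpair.2.unpair.2) ∨
  (q.unpair.1 = 1 ∧ ∃ x ≤ w, ∃ w₁ ≤ w, ∃ w₂ ≤ w, Th P q.unpair.2.unpair.1 q.unpair.2.unpair.2.unpair.2 w₁ x ∧
    ¬ Th P q.unpair.2.unpair.2.unpair.1 q.unpair.2.unpair.2.unpair.2 w₂ x) ∨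
  (q.unpair.1 = 2 ∧ ∃ d ≤ w, ¬ ∃ Y, Pth (P q.unpair.2) d Y)

theorem V_loc (q w : ℕ) : Loc (V q w) := by
  refine Loc.or ((Loc.const _).and (Loc.bex w fun w' _ => TS_loc _ _ _)) (Loc.or ((Loc.const _).and
    (Loc.bex w fun x _ => Loc.bex w fun w₁ _ => Loc.bex w fun w₂ _ => (Th_loc _ _ _ _).and
      (Th_loc _ _ _ _).not)) ((Loc.const _).and (Loc.bex w fun d _ => (exPth_loc _ _).not)))

theorem V_mono (q w w' : ℕ) (P : X) (h : w ≤ w') (a : V q w P) : V q w' P := by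
  rcases a with ⟨a, w₁, h1, h2⟩ | ⟨a, x, h1, w₁, h2, w₂, h3, h4⟩ | ⟨a, d, h1, h2⟩
  · exact Or.inl ⟨a, w₁, h1.trans h, h2⟩
  · exact Or.inr (Or.inl ⟨a, x, h1.trans h, w₁, h2.trans h, w₂, h3.trans h, h4⟩)
  · exact Or.inr (Or.inr ⟨a, d, h1.trans h, h2⟩)

end Pool.Agent.H653.Br
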