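import Pool.Agent.H653.Br.Level

set_option autoImplicit false

namespace Pool.Agent.H653.Br

open Set
open Pool.Agent.H40.Bsig (sp)

/-- The construction in one coordinate. -/
theorem coord {V : ℕ → ℕ → X → Prop} (hV : ∀ q w, IsOpen {P | V q w P})
    (hVm : ∀ q w w' P, w ≤ w' → V q w P → V q w' P) {C : Set X} (hC : IsClosed C)
    (hG : ∀ G : ℕ → ℕ → Prop, ∃ P ∈ C, ∀ a b, a < b → (P 0 (sp a b) = true ↔ G a b)) (f : ℕ → ℕ) (m : ℕ) :
    ∃ P ∈ C, ∃ s : ℕ → ℕ, s 0 = 0 ∧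
      (∀ K : Finset ℕ, (∀ a ∈ K, ∀ b ∈ K, a < b → P 0 (sp a b) = true) → K.card ≤ 2 ^ m) ∧
      ∀ i < m, f (s i) ≤ s (i + 1) ∧ m ≤ s (i + 1) ∧ (∀ k ≤ s i, ∀ y, s (i + 1) ≤ y → ¬ E P k y) ∧
        ∀ q ≤ s i, (∀ w, ¬ V q w P) ∨ V q (s (i + 1)) P := by
  classical
  let G₀ : ℕ → ℕ → Prop := fun _ _ => False
  have key : ∀ l ≤ m, ∃ (s : ℕ → ℕ) (G : ℕ → ℕ → Prop) (L : Set ℕ) (C' : Set X), s 0 = 0 ∧
      (∀ a ∈ L, a < s l) ∧ IsClosed C' ∧ C' ⊆ C ∧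
      (∀ t' G', Leg L (2 ^ (m - l)) (s l) G t' G' → Leg ∅ (2 ^ m) 0 G₀ t' G' ∧ (C' ∩ cyl t' G').Nonempty) ∧
      ∀ i < l, f (s i) ≤ s (i + 1) ∧ m ≤ s (i + 1) ∧ ∀ P ∈ C',
        (∀ k ≤ s i, ∀ y, s (i + 1) ≤ y → ¬ E P k y) ∧ ∀ q ≤ s i, (∀ w, ¬ V q w P) ∨ V q (s (i + 1)) P := by
    intro l
    induction l with
    | zero =>
      refine fun _ => ⟨fun _ => 0, G₀, ∅, C, rfl, by simp, hC, Subset.rfl, fun t' G' h => ⟨h, ?_⟩,
        fun i h => absurd h (Nat.not_lt_zero _)⟩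
      obtain ⟨P, hP, h⟩ := hG G'
      exact ⟨P, hP, fun a b hab _ => h a b hab⟩
    | succ l ih =>
      intro hl
      obtain ⟨s, G, L, C', h0, hL, hcl, hsub, hleg, hi⟩ := ih (by omega)
      have e : 2 ^ (m - l) = 2 * 2 ^ (m - (l + 1)) := by
        rw [← pow_succ']
        congr 1
        omega
      obtain ⟨t₁, G₁, T, C'', ho⟩ := level (n := s l + 1) (ω := 2 ^ (m - (l + 1))) (b₀ := max (f (s l)) m)
        (L := L) (C := C') (t₀ := s l) (G₀ := G) hV hVm Nat.one_le_two_pow hcl hL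
        fun t' G' h => (hleg t' G' (e ▸ h)).2
      refine ⟨fun i => if i ≤ l then s i else t₁, G₁, L ∪ T, C'', by simpa using h0, ?_, ho.cl,
        ho.sub.trans hsub, ?_, fun i hil => ?_⟩
      · intro a ha
        simp only [Nat.not_succ_le_self, if_false]
        exact ha.elim (fun h => (hL a h).trans_le ho.ht) (ho.hT a)
      · intro t' G' h
        simp only [Nat.not_succ_le_self, if_false] at h
        obtain ⟨h1, h2⟩ := ho.leg t' G' h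
        exact ⟨(hleg t' G' (e ▸ h1)).1, h2⟩
      · rcases Nat.lt_succ_iff_lt_or_eq.1 hil with h | rfl
        · obtain ⟨a1, a2, a3⟩ := hi i h
          have e1 : i ≤ l := h.le
          have e2 : i + 1 ≤ l := h
          simp only [e1, e2, if_true]
          exact ⟨a1, a2, fun P hP => a3 P (ho.sub hP)⟩
        · simp only [le_refl, Nat.not_succ_le_self, if_true, if_false]
          exact ⟨(le_max_left _ _).trans ho.hb, (le_max_right _ _).trans ho.hb, fun P hP =>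
            ⟨fun k hk => ho.col P hP k (Nat.lt_succ_of_le hk), fun q hq => ho.fact P hP q (Nat.lt_succ_of_le hq)⟩⟩
  obtain ⟨s, G, L, C', h0, hL, hcl, hsub, hleg, hi⟩ := key m le_rfl
  rw [Nat.sub_self, pow_zero] at hleg
  have hlg : ∀ t, s m ≤ t → Leg L 1 (s m) G t (ext (s m) G L) := fun t ht =>
    (Leg.refl L 1 (s m) G).ext hL le_rfl ht
  obtain ⟨P, hP⟩ := cpt (C := fun t => C' ∩ cyl (s m + t) (ext (s m) G L))
    (fun t => hcl.inter (isClosed_cyl _ _)) (fun t P hP => ⟨hP.1, cyl_sub (by omega)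
      (fun _ _ _ _ => Iff.rfl) hP.2⟩) fun t => (hleg _ _ (hlg _ (Nat.le_add_right _ _))).2
  refine ⟨P, hsub (hP 0).1, s, h0, fun K hK => ?_, fun i him => ⟨(hi i him).1, (hi i him).2.1,
    (hi i him).2.2 P (hP 0).1⟩⟩
  obtain ⟨b, hb⟩ : ∃ b, ∀ a ∈ K, a < b := ⟨K.sup id + 1, fun a ha => Nat.lt_succ_of_le (Finset.le_sup (f := id) ha)⟩
  refine (hleg (s m + b) _ (hlg _ (Nat.le_add_right _ _))).1.cl K (fun a ha => ⟨Nat.zero_le _, (hb a ha).trans_le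
    (Nat.le_add_left _ _)⟩) fun x hx y hy hxy => ?_
  exact ((hP b).2 x y hxy ((hb y hy).trans_le (Nat.le_add_left _ _))).1 (hK x hx y hy hxy)

end Pool.Agent.H653.Br
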