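import Pool.Agent.H653.Defs

/-!
Definitions for the statement: weak König's lemma and the bounded Ramsey theorem for pairs and two
colours in structures for second-order arithmetic.

The structures (`Mod`), satisfaction (`Sat`), the pairing `pair`, the systems `RCA0` and `Bnd M 2`
(`B Σ⁰₂`) are in `H40.BsigDefs`; `Cnt M H j c` (`H` has exactly `c` elements below `j`) and
`Pow2 M d D` (`D = 2 ^ d`) are in `H40.DenDefs`; `Bit M s i` (the `i`-th binary digit of `s` is one)
and `Unbounded M H` are in `H653.Defs`.
-/

set_option autoImplicit false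

namespace Pool.Agent.H653.BrDefs

open Pool.Agent.H40.Bsig Pool.Agent.H653.RanDefs

variable (M : Mod)

/-- A binary string of length `d` is given by the number `s < 2 ^ d` (its binary digits). -/
def IsString (d s : M.N) : Prop := ∃ D, Pow2 M d D ∧ M.lt s D

/-- The string `(d, s)` is the restriction of (the characteristic function of) `X` to the numbers
below `d`. -/
def Restr (X : Set M.N) (d s : M.N) : Prop := IsString M d s ∧ ∀ i, M.lt i d → (i ∈ X ↔ Bit M s i)

/-- `T` is a set of (codes of) binary strings that contains with a string `(d, s)` its restrictions to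
all `e ≤ d`. -/
def BinTree (T : Set M.N) : Prop :=
  (∀ c ∈ T, ∃ d s, c = pair M d s ∧ IsString M d s) ∧
    ∀ d s e r, pair M d s ∈ T → ¬ M.lt d e → Restr M {i | Bit M s i} e r → pair M e r ∈ T

/-- Weak König's lemma: every infinite binary tree has an infinite path. -/
def WKL : Prop :=
  ∀ T ∈ M.S, BinTree M T → Unbounded M T → ∃ X ∈ M.S, ∀ d, ∃ s, Restr M X d s ∧ pair M d s ∈ T

/-- A set `F` codes the colouring of the pairs `x < y` with colour `1` if `(x, y) ∈ F` and colour `0`
otherwise. `H` is homogeneous for the colour `1`. -/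
def Hom1 (F H : Set M.N) : Prop := ∀ x ∈ H, ∀ y ∈ H, M.lt x y → pair M x y ∈ F

/-- `H` is homogeneous for the colour `0`. -/
def Hom0 (F H : Set M.N) : Prop := ∀ x ∈ H, ∀ y ∈ H, M.lt x y → pair M x y ∉ F

/-- Some (finite) set of size `l` is homogeneous for the colour `1`. -/
def HasHom1 (F : Set M.N) (l : M.N) : Prop :=
  ∃ H ∈ M.S, ∃ j, (∀ x ∈ H, M.lt x j) ∧ Cnt M H j l ∧ Hom1 M F H

/-- `BRT²₂`: for every colouring of pairs and every number `l` such that no set homogeneous for the
colour `1` has size `l` there is an infinite set homogeneous for the colour `0`. -/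
def BRT : Prop := ∀ F ∈ M.S, ∀ l, ¬ HasHom1 M F l → ∃ H ∈ M.S, Unbounded M H ∧ Hom0 M F H

end Pool.Agent.H653.BrDefs
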