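import Pool.Agent.H653.Br.Mo
import Pool.Agent.H653.Br.Coord

set_option autoImplicit false

namespace Pool.Agent.H653.Br

open Filter Pool.Agent.H40.Bsig Pool.Agent.H653 RanDefs BrDefs CD

namespace Da

variable {q : Da}

theorem pow2M (k e : q.cd.I) : Pow2 q.M k e ↔ ∀ᶠ m in U, rep e m = 2 ^ rep k m :=
  CD.pow2_iff (p := q.cd) (fun _ _ => dom) k e

theorem bitM (s i : q.cd.I) : Bit q.M s i ↔ ∀ᶠ m in U, (rep s m).testBit (rep i m) = true :=
  CD.bit_iff (p := q.cd) (fun _ _ => dom) s i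

theorem cntM {C : Set q.cd.I} {W : ℕ → ℕ → Prop} (h : ∀ x, x ∈ C ↔ ∀ᶠ m in U, W m (rep x m)) (j c : q.cd.I) :
    Cnt q.M C j c ↔ ∀ᶠ m in U, rep c m = ct (W m) (rep j m) :=
  CD.cnt_iff (p := q.cd) (fun _ _ => dom) h j c

theorem pairM (x y : q.cd.I) : ∀ᶠ m in U, rep (pair q.M x y) m = sp (rep x m) (rep y m) :=
  CD.pair_ae (p := q.cd) x y

theorem strM (d s : q.cd.I) : IsString q.M d s ↔ ∀ᶠ m in U, rep s m < 2 ^ rep d m := by
  refine ⟨fun ⟨D, h1, h2⟩ => ?_, fun h => ?_⟩
  · filter_upwards [(pow2M d D).1 h1, h2] with m a b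
    exact a ▸ b
  · obtain ⟨D, hD⟩ := ex_rep (bd_pow (bd_rep d))
    exact ⟨D, (pow2M d D).2 hD, (h.and hD).mono fun m e => e.2 ▸ e.1⟩

theorem iff_ae {A B : ℕ → Prop} (h : ∀ᶠ m in U, (A m ↔ B m)) : (∀ᶠ m in U, A m) ↔ ∀ᶠ m in U, B m :=
  eventually_congr h

theorem wkl : WKL q.M := by
  rintro _ ⟨c, rfl⟩ ⟨hT1, hT2⟩ hT3
  -- nodes on all levels
  have node : ∀ d : q.cd.I, ∀ᶠ m in U, ∃ Y, Pth (q.P m (rep c m)) (rep d m) Y := by
    intro d
    obtain ⟨D, hD⟩ := ex_rep (bd_pow (bd_rep d))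
    obtain ⟨x, hx, hx'⟩ := hT3 (pair q.M d D)
    obtain ⟨e, r, rfl, hr⟩ := hT1 x hx
    have hr' := (strM e r).1 hr
    have hde : ∀ᶠ m in U, rep d m ≤ rep e m := by
      filter_upwards [hr', hD, pairM d D, pairM e r, (show ∀ᶠ m in U, rep (pair q.M d D) m <
        rep (pair q.M e r) m from hx')] with m a1 a2 a3 a4 a5
      by_contra hc
      rw [a3, a4, a2] at a5
      have h1 : 2 ^ rep e m ≤ 2 ^ rep d m := Nat.pow_le_pow_right two_pos (by omega)
      unfold sp at a5
      have h2 : (rep e m + rep r m) * (rep e m + rep r m) ≤ (rep d m + 2 ^ rep d m) * (rep d m + 2 ^ rep d m) :=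
        Nat.mul_le_mul (by omega) (by omega)
      omega
    have := (ball_iff ((bd_rep d).add (bd_const 1)) fun m e' =>
      q.P m (rep c m) (sp e' (bq e' fun i => (rep r m).testBit i)) = true).1 fun e' he' => by
        obtain ⟨s, hs⟩ := ex_rep (f := fun m => bq (rep e' m) fun i => (rep r m).testBit i)
          ((bd_pow (bd_rep e')).mono (Eventually.of_forall fun m => (bq_lt _ _).le))
        have h1 : pair q.M e' s ∈ CD.Zs c := by
          refine hT2 e r e' s hx (ae_not.1 ?_) ⟨(strM e' s).2 (hs.mono fun m e => e ▸ bq_lt _ _), fun i hi => ?_⟩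
          · filter_upwards [he', hde] with m a b
            omega
          · refine (bitM r i).trans ((iff_ae ?_).trans (bitM s i).symm)
            filter_upwards [hs, (show ∀ᶠ m in U, rep i m < rep e' m from hi)] with m a b
            rw [a, bq_test _ b]
        have h2 : ∀ᶠ m in U, q.P m (rep c m) (rep (pair q.M e' s) m) = true := h1
        filter_upwards [h2, pairM e' s, hs] with m a1 a2 a3
        rwa [a2, a3] at a1
    exact this.mono fun m h => ⟨_, fun e' he' => h e' (Nat.lt_succ_of_le he')⟩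
  rcases settle ((bd_const (p := q.cd) 2).pair (bd_rep c)) with h | ⟨z, hz, h⟩
  swap
  · have h2 : ∀ᶠ m in U, ∃ d, d ≤ z m ∧ ¬ ∃ Y, Pth (q.P m (rep c m)) d Y := by
      filter_upwards [h] with m e
      simp only [V, Nat.unpair_pair] at e
      rcases e with ⟨e, _⟩ | ⟨e, _⟩ | ⟨_, e⟩
      · omega
      · omega
      · exact e
    obtain ⟨f, hf⟩ := ae_choose h2
    obtain ⟨d, hd⟩ := ex_rep (hz.mono (hf.mono fun _ e => e.1))
    obtain ⟨m, a1, a2, a3⟩ := ((node d).and (hf.and hd)).exists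
    rw [a3] at a1
    exact absurd a1 a2.2
  · obtain ⟨i, hi⟩ := ex_rep (((bd_const (p := q.cd) 1).pair (bd_rep c)).add (bd_const 1))
    have key : ∀ᶠ m in U, ∀ n, Pth (q.P m (rep c m)) n (q.P m (rep i m)) := by
      filter_upwards [h, hi] with m e1 e2 n
      have e3 := (q.cc m (Nat.pair 1 (rep c m)) n).2
      simp only [Nat.unpair_pair, true_imp_iff] at e3
      rw [e2]
      refine e3 ?_
      by_contra h6
      refine e1 n (Or.inr (Or.inr ?_))
      simp only [Nat.unpair_pair]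
      exact ⟨trivial, n, le_rfl, h6⟩
    refine ⟨CD.Zs i, ⟨i, rfl⟩, fun d => ?_⟩
    obtain ⟨s, hs⟩ := ex_rep (f := fun m => bq (rep d m) (q.P m (rep i m)))
      ((bd_pow (bd_rep d)).mono (Eventually.of_forall fun m => (bq_lt _ _).le))
    refine ⟨s, ⟨(strM d s).2 (hs.mono fun m e => e ▸ bq_lt _ _), fun j hj => ?_⟩, ?_⟩
    · refine Iff.trans (iff_ae ?_) (bitM s j).symm
      filter_upwards [hs, (show ∀ᶠ m in U, rep j m < rep d m from hj)] with m a b
      rw [a, bq_test _ b]
      exact Iff.rfl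
    · show ∀ᶠ m in U, q.P m (rep c m) (rep (pair q.M d s) m) = true
      filter_upwards [key, pairM d s, hs] with m a1 a2 a3
      rw [a2, a3]
      exact a1 _ _ le_rfl

theorem not_brt : ¬ BRT q.M := by
  intro hb
  obtain ⟨z, hz⟩ := ex_rep (bd_const (p := q.cd) 0)
  obtain ⟨l, hl⟩ := ex_rep ((bd_pow (bd_id (p := q.cd))).add (bd_const 1))
  have memF : ∀ x y : q.cd.I, pair q.M x y ∈ CD.Zs z ↔ ∀ᶠ m in U, q.P m 0 (sp (rep x m) (rep y m)) = true :=
    fun x y => iff_ae (by
      filter_upwards [hz, pairM x y] with m a b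
      rw [a, b]
      exact Iff.rfl)
  obtain ⟨H, ⟨c, rfl⟩, h1, h2⟩ := hb (CD.Zs z) ⟨z, rfl⟩ l (by
    rintro ⟨_, ⟨c, rfl⟩, j, hj1, hj2, hj3⟩
    have e1 := (cntM (q := q) (C := CD.Zs c) (W := fun m x => q.P m (rep c m) x = true) (fun x => Iff.rfl) j l).1 hj2
    have e2 : ∀ᶠ m in U, ∀ y < rep j m, ∀ x < y, q.P m (rep c m) y = true → q.P m (rep c m) x = true →
        q.P m 0 (sp x y) = true := by
      by_contra hc
      obtain ⟨fy, hfy⟩ := ae_choose (P := fun m y => y < rep j m ∧ ∃ x < y, q.P m (rep c m) y = true ∧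
        q.P m (rep c m) x = true ∧ ¬ q.P m 0 (sp x y) = true) ((ae_not.2 hc).mono fun m e => by
          push Not at e; exact e)
      obtain ⟨fx, hfx⟩ := ae_choose (hfy.mono fun m e => e.2)
      obtain ⟨y, hy⟩ := ex_rep ((bd_rep j).mono (hfy.mono fun m e => e.1.le))
      obtain ⟨x, hx⟩ := ex_rep ((bd_rep y).mono ((hfx.and hy).mono fun m e => e.2 ▸ e.1.1.le))
      have hxy : q.M.lt x y := by
        show ∀ᶠ m in U, rep x m < rep y m
        filter_upwards [hx, hy, hfx] with m a b c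
        rw [a, b]
        exact c.1
      have := (memF x y).1 (hj3 x (by
        show ∀ᶠ m in U, q.P m (rep c m) (rep x m) = true
        filter_upwards [hx, hfx] with m a b
        rw [a]
        exact b.2.2.1) y (by
        show ∀ᶠ m in U, q.P m (rep c m) (rep y m) = true
        filter_upwards [hy, hfx] with m a b
        rw [a]
        exact b.2.1) hxy)
      obtain ⟨m, a1, a2, a3, a4⟩ := (this.and (hx.and (hy.and hfx))).exists
      rw [a2, a3] at a1
      exact a4.2.2.2 a1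
    obtain ⟨m, a1, a2, a3⟩ := (e1.and (e2.and hl)).exists
    classical
    have a4 := q.clique m ((Finset.range (rep j m)).filter fun x => q.P m (rep c m) x = true)
      fun x hx y hy hxy => a2 y (Finset.mem_range.1 (Finset.mem_filter.1 hy).1) x hxy
        (Finset.mem_filter.1 hy).2 (Finset.mem_filter.1 hx).2
    have a5 : ct (fun x => q.P m (rep c m) x = true) (rep j m) =
        ((Finset.range (rep j m)).filter fun x => q.P m (rep c m) x = true).card := by
      unfold ct
      rw [Nat.count_eq_card_filter_range]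
      congr
    rw [← a5, ← a1, a3] at a4
    omega)
  obtain ⟨k, hk⟩ := bd_rep c
  obtain ⟨B, hB⟩ := ex_rep (bd_B (p := q.cd) (k + 1))
  obtain ⟨y, hy1, hy2⟩ := h1 B
  have e2 : ∀ᶠ m in U, ∀ b < rep y m + 1, ∀ a < b, q.P m (rep c m) a = true → q.P m (rep c m) b = true →
      ¬ q.P m 0 (sp a b) = true := by
    by_contra hc
    obtain ⟨fy, hfy⟩ := ae_choose (P := fun m b => b < rep y m + 1 ∧ ∃ x < b, q.P m (rep c m) x = true ∧
      q.P m (rep c m) b = true ∧ q.P m 0 (sp x b) = true) ((ae_not.2 hc).mono fun m e => by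
        push Not at e; exact e)
    obtain ⟨fx, hfx⟩ := ae_choose (hfy.mono fun m e => e.2)
    obtain ⟨b, hb⟩ := ex_rep ((bd_rep y).mono (hfy.mono fun m e => Nat.lt_succ_iff.1 e.1))
    obtain ⟨x, hx⟩ := ex_rep ((bd_rep b).mono ((hfx.and hb).mono fun m e => e.2 ▸ e.1.1.le))
    have hxy : q.M.lt x b := by
      show ∀ᶠ m in U, rep x m < rep b m
      filter_upwards [hx, hb, hfx] with m a b c
      rw [a, b]
      exact c.1
    refine h2 x (by
      show ∀ᶠ m in U, q.P m (rep c m) (rep x m) = true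
      filter_upwards [hx, hfx] with m a b
      rw [a]
      exact b.2.1) b (by
      show ∀ᶠ m in U, q.P m (rep c m) (rep b m) = true
      filter_upwards [hb, hfx] with m a b
      rw [a]
      exact b.2.2.1) hxy ((memF x b).2 ?_)
    filter_upwards [hx, hb, hfx] with m a1 a2 a3
    rw [a1, a2]
    exact a3.2.2.2
  obtain ⟨m, a1, a2, a3, a4, a5, a6⟩ := (e2.and (hk.and (hB.and ((show ∀ᶠ m in U, q.P m (rep c m) (rep y m) = true
    from hy1).and ((show ∀ᶠ m in U, rep B m < rep y m from hy2).and (q.col k)))))).exists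
  rw [a3] at a5
  exact a6 _ a2 _ a5.le ⟨a4, fun b hb a ha => a1 b (Nat.lt_succ_of_le hb) a ha⟩

end Da

theorem exDa : Nonempty Da := by
  have h := fun m => coord (V := V) (fun q w => (V_loc q w).isOpen) V_mono isClosed_Cc exCc tf m
  choose P hP s hs0 hcl hs using h
  have hm : ∀ l, ∀ᶠ m in U, l < m := fun l => (U_ge (l + 1)).mono fun m e => e
  exact ⟨{
    B := fun j m => s m (j + 1)
    P := P
    B0 := (hm 0).mono fun m e => (hs m 0 e).2.1
    step := fun j => (hm (j + 1)).mono fun m e => (hs m (j + 1) e).1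
    cc := hP
    clique := hcl
    col := fun j => (hm (j + 1)).mono fun m e => (hs m (j + 1) e).2.2.1
    fact := fun j => (hm (j + 1)).mono fun m e => (hs m (j + 1) e).2.2.2 }⟩

end Pool.Agent.H653.Br
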