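import Pool.Agent.H653.Br.Top

set_option autoImplicit false

namespace Pool.Agent.H653.Br

open Set
open Pool.Agent.H40.Bsig (sp)

/-- `K` is a clique of the graph `G` (given by the pairs `a < b` with `G a b`). -/
def Cl (G : ℕ → ℕ → Prop) (K : Finset ℕ) : Prop := ∀ a ∈ K, ∀ b ∈ K, a < b → G a b

/-- The graph `G'` on `[0, t')` extends the graph `G` on `[0, t)`, each new vertex is joined to the
elements of `L` and to no other old vertex, and the cliques of new vertices have at most `ω` elements. -/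
structure Leg (L : Set ℕ) (ω t : ℕ) (G : ℕ → ℕ → Prop) (t' : ℕ) (G' : ℕ → ℕ → Prop) : Prop where
  le : t ≤ t'
  eq : ∀ a b, a < b → b < t → (G' a b ↔ G a b)
  low : ∀ a b, a < t → t ≤ b → b < t' → (G' a b ↔ a ∈ L)
  cl : ∀ K : Finset ℕ, (∀ a ∈ K, t ≤ a ∧ a < t') → Cl G' K → K.card ≤ ω

/-- The column `0` codes the graph `G` on `[0, t)`. -/
def cyl (t : ℕ) (G : ℕ → ℕ → Prop) : Set X := {P | ∀ a b, a < b → b < t → (P 0 (sp a b) = true ↔ G a b)}

/-- All the new vertices are joined exactly to the elements of `L`. -/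
def ext (t : ℕ) (G : ℕ → ℕ → Prop) (L : Set ℕ) : ℕ → ℕ → Prop :=
  fun a b => (b < t ∧ G a b) ∨ (t ≤ b ∧ a ∈ L)

theorem ext_lt {t : ℕ} {G : ℕ → ℕ → Prop} {L : Set ℕ} {a b : ℕ} (h : b < t) : ext t G L a b ↔ G a b :=
  ⟨fun e => e.elim (fun e => e.2) fun e => absurd h e.1.not_gt, fun e => Or.inl ⟨h, e⟩⟩

theorem ext_ge {t : ℕ} {G : ℕ → ℕ → Prop} {L : Set ℕ} {a b : ℕ} (h : t ≤ b) : ext t G L a b ↔ a ∈ L :=
  ⟨fun e => e.elim (fun e => absurd e.1 h.not_gt) fun e => e.2, fun e => Or.inr ⟨h, e⟩⟩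

theorem cyl_sub {t t' : ℕ} {G G' : ℕ → ℕ → Prop} (h : t ≤ t') (e : ∀ a b, a < b → b < t → (G' a b ↔ G a b)) :
    cyl t' G' ⊆ cyl t G :=
  fun _ hP a b h1 h2 => (hP a b h1 (h2.trans_le h)).trans (e a b h1 h2)

theorem Leg.cyl_sub {L : Set ℕ} {ω t t' : ℕ} {G G' : ℕ → ℕ → Prop} (h : Leg L ω t G t' G') :
    cyl t' G' ⊆ cyl t G := Br.cyl_sub h.le h.eq

theorem isClosed_cyl (t : ℕ) (G : ℕ → ℕ → Prop) : IsClosed (cyl t G) := by
  have : Loc fun P => ∀ b < t, ∀ a < b, ((P 0 (sp a b) = true → G a b) ∧ (G a b → P 0 (sp a b) = true)) :=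
    Loc.ball t fun b _ => Loc.ball b fun a _ => ((Loc.at' 0 (sp a b)).imp (Loc.const _)).and
      ((Loc.const _).imp (Loc.at' 0 (sp a b)))
  convert this.isClosed using 1
  ext P
  exact ⟨fun h b hb a ha => ⟨(h a b ha hb).1, (h a b ha hb).2⟩, fun h a b ha hb => ⟨(h b hb a ha).1, (h b hb a ha).2⟩⟩

variable {L : Set ℕ} {ω t t' t'' : ℕ} {G G' G'' : ℕ → ℕ → Prop}

theorem Leg.refl (L : Set ℕ) (ω t : ℕ) (G : ℕ → ℕ → Prop) : Leg L ω t G t G where
  le := le_rfl
  eq := fun _ _ _ _ => Iff.rfl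
  low := fun a b _ h1 h2 => absurd h2 h1.not_gt
  cl := fun K h _ => by
    have : K = ∅ := Finset.eq_empty_of_forall_notMem fun a ha => by
      have := h a ha
      omega
    simp [this]

theorem Leg.ext (h : Leg L ω t G t' G') (hL : ∀ a ∈ L, a < t) (hω : 1 ≤ ω) (ht : t' ≤ t'') :
    Leg L ω t G t'' (ext t' G' L) where
  le := h.le.trans ht
  eq := fun a b h1 h2 => (ext_lt (h2.trans_le h.le)).trans (h.eq a b h1 h2)
  low := fun a b h1 h2 h3 => by
    rcases lt_or_ge b t' with e | e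
    · exact (ext_lt e).trans (h.low a b h1 h2 e)
    · exact ext_ge e
  cl := fun K hK hc => by
    by_cases e : ∀ a ∈ K, a < t'
    · exact h.cl K (fun a ha => ⟨(hK a ha).1, e a ha⟩) fun a ha b hb hab => (ext_lt (e b hb)).1 (hc a ha b hb hab)
    · push Not at e
      obtain ⟨b, hb, hb'⟩ := e
      have : K ⊆ {b} := fun a ha => by
        rw [Finset.mem_singleton]
        rcases lt_trichotomy a b with h1 | h1 | h1
        · have := hL a ((ext_ge hb').1 (hc a ha b hb h1))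
          have := (hK a ha).1
          omega
        · exact h1
        · have := hL b ((ext_ge (hb'.trans h1.le)).1 (hc b hb a ha h1))
          have := (hK b hb).1
          omega
      exact (Finset.card_le_card this).trans (by simpa using hω)

theorem Leg.trans (h : Leg L ω t G t' G') (h' : Leg L ω t' G' t'' G'') (hL : ∀ a ∈ L, a < t) :
    Leg L ω t G t'' G'' where
  le := h.le.trans h'.le
  eq := fun a b h1 h2 => (h'.eq a b h1 (h2.trans_le h.le)).trans (h.eq a b h1 h2)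
  low := fun a b h1 h2 h3 => by
    rcases lt_or_ge b t' with e | e
    · exact (h'.eq a b (h1.trans_le h2) e).trans (h.low a b h1 h2 e)
    · exact h'.low a b (h1.trans_le h.le) e h3
  cl := fun K hK hc => by
    by_cases e : ∀ a ∈ K, a < t'
    · exact h.cl K (fun a ha => ⟨(hK a ha).1, e a ha⟩) fun a ha b hb hab =>
        (h'.eq a b hab (e b hb)).1 (hc a ha b hb hab)
    by_cases e' : ∀ a ∈ K, t' ≤ a
    · exact h'.cl K (fun a ha => ⟨e' a ha, (hK a ha).2⟩) hc
    push Not at e e'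
    obtain ⟨b, hb, hb'⟩ := e
    obtain ⟨a, ha, ha'⟩ := e'
    have := hL a ((h'.low a b ha' hb' (hK b hb).2).1 (hc a ha b hb (by omega)))
    have := (hK a ha).1
    omega

/-- After a canonical extension one may join new vertices to a smaller set. -/
theorem Leg.ext_trans (hL : ∀ a ∈ L, a < t) (ht : t ≤ t') (hω : 1 ≤ ω) (h' : Leg L ω t' (Br.ext t G L) t'' G'') :
    Leg L ω t G t'' G'' := ((Leg.refl L ω t G).ext hL hω ht).trans h' hL

theorem blk {s : ℕ → ℕ} {a : ℕ} (h0 : s 0 ≤ a) : ∀ {j : ℕ}, a < s j → ∃ i < j, s i ≤ a ∧ a < s (i + 1)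
  | 0, h => absurd h h0.not_gt
  | j + 1, h => by
    rcases lt_or_ge a (s j) with e | e
    · obtain ⟨i, hi, h1⟩ := blk h0 e
      exact ⟨i, hi.trans j.lt_succ_self, h1⟩
    · exact ⟨j, j.lt_succ_self, e, h⟩

theorem blk_uniq {s : ℕ → ℕ} (hs : Monotone s) {a i i' : ℕ} (h1 : s i ≤ a) (h2 : a < s (i + 1))
    (h3 : s i' ≤ a) (h4 : a < s (i' + 1)) : i = i' := by
  rcases lt_trichotomy i i' with e | e | e
  · have := hs (show i + 1 ≤ i' from e)
    omega
  · exact e
  · have := hs (show i' + 1 ≤ i from e)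
    omega

/-- The blocks `[s i, s (i + 1))`, `i < j`: the graph between the blocks is given by `Γ`. -/
structure Inv (Γ : ℕ → ℕ → Prop) (L : Set ℕ) (ω t₀ : ℕ) (G₀ : ℕ → ℕ → Prop) (j t : ℕ) (G : ℕ → ℕ → Prop)
    (s : ℕ → ℕ) : Prop where
  s0 : s 0 = t₀
  sj : s j = t
  mono : Monotone s
  leg : Leg L (2 * ω) t₀ G₀ t G
  bl : ∀ i i', i < i' → i' < j → ∀ a b, s i ≤ a → a < s (i + 1) → s i' ≤ b → b < s (i' + 1) →
    (G a b ↔ Γ i i')
  cl : ∀ i < j, ∀ K : Finset ℕ, (∀ a ∈ K, s i ≤ a ∧ a < s (i + 1)) → Cl G K → K.card ≤ ω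

/-- The union of the blocks that are joined to the `j`-th block. -/
def TT (Γ : ℕ → ℕ → Prop) (j : ℕ) (s : ℕ → ℕ) : Set ℕ := {a | ∃ i < j, Γ i j ∧ s i ≤ a ∧ a < s (i + 1)}

variable {Γ : ℕ → ℕ → Prop} {j t₀ : ℕ} {G₀ : ℕ → ℕ → Prop} {s : ℕ → ℕ}

theorem Inv.TT_mem (h : Inv Γ L ω t₀ G₀ j t G s) {a : ℕ} (ha : a ∈ TT Γ j s) : t₀ ≤ a ∧ a < t := by
  obtain ⟨i, hi, _, h1, h2⟩ := ha
  have e1 := h.mono (Nat.zero_le i)
  have e2 := h.mono (show i + 1 ≤ j from hi)
  rw [h.s0] at e1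
  rw [h.sj] at e2
  omega

theorem Inv.leg' (h : Inv Γ L ω t₀ G₀ j t G s) (hL : ∀ a ∈ L, a < t₀)
    (hΓ : ∀ i i', i < i' → i' < j → Γ i i' → Γ i j → Γ i' j → False)
    (h' : Leg (L ∪ TT Γ j s) ω t G t' G') : Leg L (2 * ω) t₀ G₀ t' G' where
  le := h.leg.le.trans h'.le
  eq := fun a b h1 h2 => (h'.eq a b h1 (h2.trans_le h.leg.le)).trans (h.leg.eq a b h1 h2)
  low := fun a b h1 h2 h3 => by
    rcases lt_or_ge b t with e | e
    · exact (h'.eq a b (h1.trans_le h2) e).trans (h.leg.low a b h1 h2 e)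
    · refine (h'.low a b (h1.trans_le h.leg.le) e h3).trans ⟨fun e => ?_, Or.inl⟩
      exact e.elim id fun e => absurd (h.TT_mem e).1 h1.not_ge
  cl := fun K hK hc => by
    classical
    set K₁ := K.filter (· < t) with hK₁
    set K₂ := K.filter (fun x => ¬ x < t) with hK₂
    have hcard : K₁.card + K₂.card = K.card := Finset.card_filter_add_card_filter_not _
    have h2 : K₂.card ≤ ω := h'.cl K₂ (fun a ha => by
      have := Finset.mem_filter.1 ha
      exact ⟨not_lt.1 this.2, (hK a this.1).2⟩) fun a ha b hb hab =>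
        hc a (Finset.mem_filter.1 ha).1 b (Finset.mem_filter.1 hb).1 hab
    rcases K₂.eq_empty_or_nonempty with e | ⟨b, hb⟩
    · have h1 : K₁.card ≤ 2 * ω := h.leg.cl K₁ (fun a ha => by
        have := Finset.mem_filter.1 ha
        exact ⟨(hK a this.1).1, this.2⟩) fun a ha b hb hab =>
          (h'.eq a b hab (Finset.mem_filter.1 hb).2).1
            (hc a (Finset.mem_filter.1 ha).1 b (Finset.mem_filter.1 hb).1 hab)
      rw [e, Finset.card_empty] at hcard
      omega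
    · have hb' := Finset.mem_filter.1 hb
      have key : ∀ a ∈ K₁, ∃ i < j, Γ i j ∧ s i ≤ a ∧ a < s (i + 1) := fun a ha => by
        have ha' := Finset.mem_filter.1 ha
        have := (h'.low a b ha'.2 (not_lt.1 hb'.2) (hK b hb'.1).2).1 (hc a ha'.1 b hb'.1 (by omega))
        exact this.elim (fun e => absurd (hL a e) (hK a ha'.1).1.not_gt) id
      have h1 : K₁.card ≤ ω := by
        rcases K₁.eq_empty_or_nonempty with e | ⟨a₀, ha₀⟩
        · simp [e]
        · obtain ⟨i₀, hi₀, hΓ₀, h3, h4⟩ := key a₀ ha₀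
          have aux : ∀ a ∈ K₁, ∀ a' ∈ K₁, ∀ i < j, ∀ i' < j, Γ i j → Γ i' j → s i ≤ a → a < s (i + 1) →
              s i' ≤ a' → a' < s (i' + 1) → ¬ i < i' := fun a ha a' ha' i hi i' hi' e1 e2 e3 e4 e5 e6 e => by
            have m1 := h.mono (show i + 1 ≤ i' from e)
            have ha1 := Finset.mem_filter.1 ha
            have ha2 := Finset.mem_filter.1 ha'
            have g1 := hc a ha1.1 a' ha2.1 (by omega)
            have g2 := (h'.eq a a' (by omega) ha2.2).1 g1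
            exact hΓ i i' e hi' ((h.bl i i' e hi' a a' e3 e4 e5 e6).1 g2) e1 e2
          refine h.cl i₀ hi₀ K₁ (fun a ha => ?_) fun a ha b hb hab =>
            (h'.eq a b hab (Finset.mem_filter.1 hb).2).1
              (hc a (Finset.mem_filter.1 ha).1 b (Finset.mem_filter.1 hb).1 hab)
          obtain ⟨i, hi, hΓi, h5, h6⟩ := key a ha
          have : i = i₀ := le_antisymm (not_lt.1 (aux a₀ ha₀ a ha i₀ hi₀ i hi hΓ₀ hΓi h3 h4 h5 h6))
            (not_lt.1 (aux a ha a₀ ha₀ i hi i₀ hi₀ hΓi hΓ₀ h5 h6 h3 h4))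
          subst this
          exact ⟨h5, h6⟩
      omega

theorem Inv.succ (h : Inv Γ L ω t₀ G₀ j t G s) (hL : ∀ a ∈ L, a < t₀)
    (hΓ : ∀ i i', i < i' → i' < j → Γ i i' → Γ i j → Γ i' j → False)
    (h' : Leg (L ∪ TT Γ j s) ω t G t' G') :
    Inv Γ L ω t₀ G₀ (j + 1) t' G' fun i => if i ≤ j then s i else t' where
  s0 := by simpa using h.s0
  sj := by simp
  mono := fun x y hxy => by
    have hj : ∀ i ≤ j, s i ≤ t' := fun i hi => (h.mono hi).trans (h.sj.trans_le h'.le)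
    dsimp only
    split_ifs with h1 h2 h2
    · exact h.mono hxy
    · exact hj _ h1
    · omega
    · exact le_rfl
  leg := h.leg' hL hΓ h'
  bl := fun i i' h1 h2 a b h3 h4 h5 h6 => by
    have e1 : i ≤ j := by omega
    have e2 : i + 1 ≤ j := by omega
    have e3 : i' ≤ j := by omega
    simp only [e1, e2, e3, if_true] at h3 h4 h5
    have m1 := h.mono (show i + 1 ≤ i' from h1)
    have hab : a < b := by omega
    rcases Nat.lt_succ_iff_lt_or_eq.1 h2 with h7 | h7
    · have e4 : i' + 1 ≤ j := h7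
      simp only [e4, if_true] at h6
      have m2 := (h.mono e4).trans_eq h.sj
      exact (h'.eq a b hab (by omega)).trans (h.bl i i' h1 h7 a b h3 h4 h5 h6)
    · subst h7
      simp only [Nat.not_succ_le_self, if_false] at h6
      have m2 := (h.mono e2).trans_eq h.sj
      have m3 := h.mono (Nat.zero_le i)
      rw [h.s0] at m3
      refine (h'.low a b (by omega) (h.sj ▸ h5) h6).trans ⟨fun e => ?_, fun e => Or.inr ⟨i, h1, e, h3, h4⟩⟩
      rcases e with e | ⟨i₂, _, h8, h9, h10⟩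
      · have := hL a e
        omega
      · rwa [blk_uniq h.mono h3 h4 h9 h10]
  cl := fun i hi K hK hc => by
    have e1 : i ≤ j := by omega
    simp only [e1, if_true] at hK
    rcases Nat.lt_succ_iff_lt_or_eq.1 hi with h7 | h7
    · have e4 : i + 1 ≤ j := h7
      simp only [e4, if_true] at hK
      have m2 := (h.mono e4).trans_eq h.sj
      exact h.cl i h7 K hK fun a ha b hb hab => (h'.eq a b hab (by have := hK b hb; omega)).1 (hc a ha b hb hab)
    · subst h7
      simp only [Nat.not_succ_le_self, if_false, h.sj] at hK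
      exact h'.cl K hK hc

end Pool.Agent.H653.Br
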