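import Mathlib

set_option autoImplicit false

namespace Pool.Agent.H653.Br

/-- The shift graph on (the codes of) the pairs `a < b`. -/
def Sh (i j : ℕ) : Prop :=
  i.unpair.1 < i.unpair.2 ∧ j.unpair.1 < j.unpair.2 ∧ (i.unpair.2 = j.unpair.1 ∨ j.unpair.2 = i.unpair.1)

theorem Sh_free {i i' j : ℕ} (h1 : Sh i i') (h2 : Sh i j) (h3 : Sh i' j) : False := by
  obtain ⟨a1, a2, a3⟩ := h1
  obtain ⟨b1, b2, b3⟩ := h2
  obtain ⟨c1, c2, c3⟩ := h3
  omega

theorem Sh_symm {i j : ℕ} (h : Sh i j) : Sh j i := ⟨h.2.1, h.1, h.2.2.symm⟩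

/-- The chromatic number of the shift graph is large. -/
theorem Sh_col (κ : Type) [Fintype κ] : ∃ r : ℕ, ∀ c : ℕ → κ, ∃ i j, i < j ∧ j < r ∧ Sh i j ∧ c i = c j := by
  classical
  set M := 2 ^ Fintype.card κ + 1 with hM
  refine ⟨(Finset.range M ×ˢ Finset.range M).sup (fun q => Nat.pair q.1 q.2) + 1, fun c => ?_⟩
  by_contra hc
  push Not at hc
  have hr : ∀ a b, a < M → b < M → Nat.pair a b < (Finset.range M ×ˢ Finset.range M).sup
      (fun q => Nat.pair q.1 q.2) + 1 := fun a b ha hb =>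
    Nat.lt_succ_of_le (Finset.le_sup (f := fun q : ℕ × ℕ => Nat.pair q.1 q.2) (b := (a, b))
      (Finset.mem_product.2 ⟨Finset.mem_range.2 ha, Finset.mem_range.2 hb⟩))
  have key : ∀ a b d, a < b → b < d → d < M → c (Nat.pair a b) ≠ c (Nat.pair b d) := fun a b d h1 h2 h3 e => by
    have hs : Sh (Nat.pair a b) (Nat.pair b d) := by
      refine ⟨?_, ?_, ?_⟩ <;> simp [h1, h2]
    have hne : Nat.pair a b ≠ Nat.pair b d := fun e => by
      have := (Nat.pair_eq_pair.1 e).1
      omega
    rcases Nat.lt_or_gt_of_ne hne with h | h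
    · exact hc _ _ h (hr b d (by omega) h3) hs e
    · exact hc _ _ h (hr a b (by omega) (by omega)) (Sh_symm hs) e.symm
  let S : ℕ → Finset κ := fun a => ((Finset.range M).filter (a < ·)).image fun b => c (Nat.pair a b)
  have hS : ∀ a b, a < b → b < M → S a ≠ S b := fun a b h1 h2 e => by
    have : c (Nat.pair a b) ∈ S a := Finset.mem_image.2 ⟨b, by simp [h1, h2], rfl⟩
    rw [e] at this
    obtain ⟨d, hd, hd'⟩ := Finset.mem_image.1 this
    simp only [Finset.mem_filter, Finset.mem_range] at hd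
    exact key a b d h1 hd.2 hd.1 hd'.symm
  have hcard : (Finset.range M).card ≤ (Finset.univ : Finset (Finset κ)).card :=
    Finset.card_le_card_of_injOn S (fun _ _ => Finset.mem_coe.2 (Finset.mem_univ _)) fun a ha b hb e => by
      rw [Finset.mem_coe, Finset.mem_range] at ha hb
      rcases lt_trichotomy a b with h | h | h
      · exact absurd e (hS a b h hb)
      · exact h
      · exact absurd e.symm (hS b a h ha)
  rw [Finset.card_range, Finset.card_univ, Fintype.card_finset, hM] at hcard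
  omega

end Pool.Agent.H653.Br
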