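import Pool.Agent.H653.Br.Leg
import Pool.Agent.H653.Br.Shift

set_option autoImplicit false

namespace Pool.Agent.H653.Br

open Set
open Pool.Agent.H40.Bsig (sp)

/-- The elements of `C` for which the facts in `Q` are never witnessed. -/
def CQ (V : ℕ → ℕ → X → Prop) (C : Set X) (Q : Finset ℕ) : Set X := {P | P ∈ C ∧ ∀ q ∈ Q, ∀ w, ¬ V q w P}

def Alive (V : ℕ → ℕ → X → Prop) (C : Set X) (t : ℕ) (G : ℕ → ℕ → Prop) (Q : Finset ℕ) : Prop :=
  (CQ V C Q ∩ cyl t G).Nonempty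

/-- The result of one level. -/
structure Out (V : ℕ → ℕ → X → Prop) (n ω b₀ : ℕ) (L : Set ℕ) (C : Set X) (t₀ : ℕ) (G₀ : ℕ → ℕ → Prop)
    (t₁ : ℕ) (G₁ : ℕ → ℕ → Prop) (T : Set ℕ) (C' : Set X) : Prop where
  hb : b₀ ≤ t₁
  ht : t₀ ≤ t₁
  hT : ∀ a ∈ T, a < t₁
  sub : C' ⊆ C
  cl : IsClosed C'
  leg : ∀ t' G', Leg (L ∪ T) ω t₁ G₁ t' G' → Leg L (2 * ω) t₀ G₀ t' G' ∧ (C' ∩ cyl t' G').Nonempty
  col : ∀ P ∈ C', ∀ k < n, ∀ y, t₁ ≤ y → ¬ E P k y
  fact : ∀ P ∈ C', ∀ q < n, (∀ w, ¬ V q w P) ∨ V q t₁ P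

variable {V : ℕ → ℕ → X → Prop} {n ω b₀ : ℕ} {L : Set ℕ} {C : Set X} {t₀ : ℕ} {G₀ : ℕ → ℕ → Prop}

theorem isClosed_CQ (hV : ∀ q w, IsOpen {P | V q w P}) (hC : IsClosed C) (Q : Finset ℕ) :
    IsClosed (CQ V C Q) := by
  have : CQ V C Q = C ∩ ⋂ q ∈ Q, ⋂ w, {P | V q w P}ᶜ := by
    ext P
    simp [CQ]
  rw [this]
  exact hC.inter (isClosed_biInter fun q _ => isClosed_iInter fun w => (hV q w).isClosed_compl)

/-- One block: either the level is finished or there is a block in which every element of `CQ V C Q`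
has an element of one of the first `n` columns. -/
theorem step (hV : ∀ q w, IsOpen {P | V q w P}) (hVm : ∀ q w w' P, w ≤ w' → V q w P → V q w' P)
    (hω : 1 ≤ ω) (hC : IsClosed C) (hL : ∀ a ∈ L, a < t₀)
    (H : ∀ t' G', Leg L (2 * ω) t₀ G₀ t' G' → (C ∩ cyl t' G').Nonempty)
    {j t : ℕ} {G : ℕ → ℕ → Prop} {s : ℕ → ℕ} (hI : Inv Sh L ω t₀ G₀ j t G s) :
    (∃ t₁ G₁ T C', Out V n ω b₀ L C t₀ G₀ t₁ G₁ T C') ∨
      ∃ t' G', Leg (L ∪ TT Sh j s) ω t G t' G' ∧ ∃ Q ⊆ Finset.range n, Alive V C t₀ G₀ Q ∧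
        ∀ P ∈ CQ V C Q ∩ cyl t' G', ∃ k < n, ∃ y < t', t ≤ y ∧ E P k y := by
  classical
  have hLT : ∀ a ∈ L ∪ TT Sh j s, a < t := fun a ha => ha.elim (fun h => (hL a h).trans_le hI.leg.le)
    fun h => (hI.TT_mem h).2
  have hΓ : ∀ i i', i < i' → i' < j → Sh i i' → Sh i j → Sh i' j → False := fun i i' _ _ h1 h2 h3 =>
    Sh_free h1 h2 h3
  have hloc : ∀ b, Loc fun P => ¬ ∀ k < n, ∀ y < b, t ≤ y → ¬ E P k y := fun b =>
    (Loc.ball n fun k _ => Loc.ball b fun y _ => (Loc.const _).imp (E_loc k y).not).not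
  by_cases h : ∃ Q ⊆ Finset.range n, Alive V C t G Q ∧ ∃ t' G', Leg (L ∪ TT Sh j s) ω t G t' G' ∧
      ∀ P ∈ CQ V C Q ∩ cyl t' G', ¬ ∀ k < n, ∀ y, t ≤ y → ¬ E P k y
  · right
    obtain ⟨Q, hQn, hQ, t', G', hleg, hA⟩ := h
    obtain ⟨b, hb⟩ := cpt' ((isClosed_CQ hV hC Q).inter (isClosed_cyl t' G'))
      (A := fun b P => ¬ ∀ k < n, ∀ y < b, t ≤ y → ¬ E P k y) (fun b => (hloc b).isOpen)
      (fun b P h e => h fun k hk y hy => e k hk y (hy.trans b.lt_succ_self)) fun P hP => by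
        have := hA P hP
        push Not at this
        obtain ⟨k, hk, y, hy, hE⟩ := this
        exact ⟨y + 1, fun e => e k hk y y.lt_succ_self hy hE⟩
    refine ⟨max t' b, _, hleg.ext hLT hω (le_max_left t' b), Q, hQn, ?_, fun P hP => ?_⟩
    · exact hQ.mono (inter_subset_inter_right _ hI.leg.cyl_sub)
    · have := hb P ⟨hP.1, cyl_sub (le_max_left t' b) (fun a b _ h => ext_lt h) hP.2⟩
      push Not at this
      obtain ⟨k, hk, y, hy, h1, h2⟩ := this
      exact ⟨k, hk, y, lt_max_of_lt_right hy, h1, h2⟩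
  · left
    push Not at h
    let S := (Finset.range n).powerset.filter (Alive V C t G)
    have hne : S.Nonempty := ⟨∅, Finset.mem_filter.2 ⟨by simp, by
      obtain ⟨P, hP⟩ := H t G hI.leg
      exact ⟨P, ⟨hP.1, by simp⟩, hP.2⟩⟩⟩
    obtain ⟨Q, hQ, hmax⟩ := Finset.exists_max_image S Finset.card hne
    obtain ⟨hQn, hQa⟩ := Finset.mem_filter.1 hQ
    rw [Finset.mem_powerset] at hQn
    have hK := (isClosed_CQ hV hC Q).inter (isClosed_cyl t G)
    have hw : ∀ q, ∃ w, q < n → q ∉ Q → ∀ P ∈ CQ V C Q ∩ cyl t G, V q w P := fun q => by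
      by_cases e : q < n ∧ q ∉ Q
      · obtain ⟨w, hw⟩ := cpt' hK (A := V q) (hV q) (fun w P => hVm q w (w + 1) P (Nat.le_succ w))
          fun P hP => by
            by_contra hc
            push Not at hc
            have := hmax (insert q Q) (Finset.mem_filter.2 ⟨Finset.mem_powerset.2
              (Finset.insert_subset (Finset.mem_range.2 e.1) hQn), P, ⟨hP.1.1, fun q' hq' => by
                rcases Finset.mem_insert.1 hq' with rfl | hq'
                · exact hc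
                · exact hP.1.2 q' hq'⟩, hP.2⟩)
            rw [Finset.card_insert_of_notMem e.2] at this
            omega
        exact ⟨w, fun _ _ => hw⟩
      · exact ⟨0, fun h1 h2 => absurd ⟨h1, h2⟩ e⟩
    choose w hw using hw
    have ht₁ : t ≤ max (max b₀ t) ((Finset.range n).sup w) := (le_max_right _ _).trans (le_max_left _ _)
    refine ⟨max (max b₀ t) ((Finset.range n).sup w), ext t G (L ∪ TT Sh j s), TT Sh j s,
      {P | P ∈ CQ V C Q ∧ ∀ k < n, ∀ y, t ≤ y → ¬ E P k y} ∩ cyl t G, ?_⟩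
    refine ⟨(le_max_left _ _).trans (le_max_left _ _), hI.leg.le.trans ht₁,
      fun a ha => (hI.TT_mem ha).2.trans_le ht₁, fun P hP => hP.1.1.1, ?_, fun t' G' hleg => ?_,
      fun P hP k hk y hy => hP.1.2 k hk y (ht₁.trans hy), fun P hP q hq => ?_⟩
    · refine IsClosed.inter ?_ (isClosed_cyl t G)
      have : {P | P ∈ CQ V C Q ∧ ∀ k < n, ∀ y, t ≤ y → ¬ E P k y} = CQ V C Q ∩
          ⋂ b, {P | ∀ k < n, ∀ y < b, t ≤ y → ¬ E P k y} := by
        ext P
        simp only [mem_ofPred_eq, mem_inter_iff, mem_iInter]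
        exact and_congr_right fun _ => ⟨fun h b k hk y _ => h k hk y,
          fun h k hk y hy => h (y + 1) k hk y y.lt_succ_self hy⟩
      rw [this]
      exact (isClosed_CQ hV hC Q).inter (isClosed_iInter fun b => ((hloc b).not.congr
        fun P => not_not).isClosed)
    · have h1 := Leg.ext_trans hLT ht₁ hω hleg
      refine ⟨hI.leg' hL hΓ h1, ?_⟩
      obtain ⟨P, hP, hP'⟩ := h Q hQn hQa t' G' h1
      exact ⟨P, ⟨⟨hP.1, fun k hk y hy => hP' k hk y hy⟩, h1.cyl_sub hP.2⟩, hP.2⟩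
    · by_cases e : q ∈ Q
      · exact Or.inl (hP.1.1.2 q e)
      · exact Or.inr (hVm q (w q) _ P ((Finset.le_sup (Finset.mem_range.2 hq)).trans (le_max_right _ _))
          (hw q hq e P ⟨hP.1.1, hP.2⟩))

theorem level (hV : ∀ q w, IsOpen {P | V q w P}) (hVm : ∀ q w w' P, w ≤ w' → V q w P → V q w' P)
    (hω : 1 ≤ ω) (hC : IsClosed C) (hL : ∀ a ∈ L, a < t₀)
    (H : ∀ t' G', Leg L (2 * ω) t₀ G₀ t' G' → (C ∩ cyl t' G').Nonempty) :
    ∃ t₁ G₁ T C', Out V n ω b₀ L C t₀ G₀ t₁ G₁ T C' := by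
  classical
  obtain ⟨r, hr⟩ := Sh_col ({Q // Q ∈ (Finset.range n).powerset} × Fin n ⊕ Unit)
  suffices key : ∀ (N t₀ : ℕ) (G₀ : ℕ → ℕ → Prop), (∀ a ∈ L, a < t₀) →
      ((Finset.range n).powerset.filter (Alive V C t₀ G₀)).card ≤ N →
      (∀ t' G', Leg L (2 * ω) t₀ G₀ t' G' → (C ∩ cyl t' G').Nonempty) →
      ∃ t₁ G₁ T C', Out V n ω b₀ L C t₀ G₀ t₁ G₁ T C' from key _ t₀ G₀ hL le_rfl H
  intro N
  induction N with
  | zero =>
    intro t₀ G₀ _ h1 h2
    obtain ⟨P, hP⟩ := h2 t₀ G₀ (Leg.refl _ _ _ _)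
    have : (∅ : Finset ℕ) ∈ (Finset.range n).powerset.filter (Alive V C t₀ G₀) :=
      Finset.mem_filter.2 ⟨by simp, P, ⟨hP.1, by simp⟩, hP.2⟩
    have := Finset.card_pos.2 ⟨_, this⟩
    omega
  | succ N ih =>
    intro t₀ G₀ hL h1 h2
    by_contra hcon
    have steps : ∀ j, ∃ t G s, Inv Sh L ω t₀ G₀ j t G s ∧ ∀ i < j, ∃ Q ⊆ Finset.range n,
        Alive V C t₀ G₀ Q ∧ ∀ P ∈ CQ V C Q ∩ cyl t G, ∃ k < n, ∃ y, s i ≤ y ∧ y < s (i + 1) ∧ E P k y := by
      intro j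
      induction j with
      | zero =>
        exact ⟨t₀, G₀, fun _ => t₀, ⟨rfl, rfl, fun _ _ _ => le_rfl, Leg.refl _ _ _ _,
          fun i i' _ h => absurd h (Nat.not_lt_zero _), fun i h => absurd h (Nat.not_lt_zero _)⟩,
          fun i h => absurd h (Nat.not_lt_zero _)⟩
      | succ j ihj =>
        obtain ⟨t, G, s, hI, hh⟩ := ihj
        rcases step (n := n) (b₀ := b₀) hV hVm hω hC hL h2 hI with h | ⟨t', G', hleg, Q, hQn, hQ, hhit⟩
        · exact absurd h hcon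
        · refine ⟨t', G', _, hI.succ hL (fun i i' _ _ h1 h2 h3 => Sh_free h1 h2 h3) hleg, fun i hi => ?_⟩
          rcases Nat.lt_succ_iff_lt_or_eq.1 hi with h | rfl
          · obtain ⟨Q', a1, a2, a3⟩ := hh i h
            refine ⟨Q', a1, a2, fun P hP => ?_⟩
            have e1 : i ≤ j := h.le
            have e2 : i + 1 ≤ j := h
            simp only [e1, e2, if_true]
            exact a3 P ⟨hP.1, hleg.cyl_sub hP.2⟩
          · refine ⟨Q, hQn, hQ, fun P hP => ?_⟩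
            obtain ⟨k, hk, y, hy, hy', hE⟩ := hhit P hP
            exact ⟨k, hk, y, by simpa [hI.sj] using hy', by simpa using hy, hE⟩
    obtain ⟨t, G, s, hI, hh⟩ := steps r
    choose! Q hQn hQ hhit using hh
    by_cases hal : ∀ Q ⊆ Finset.range n, Alive V C t₀ G₀ Q → Alive V C t G Q
    · -- colouring of the shift graph
      have hex : ∀ Q' : Finset ℕ, ∃ P, Alive V C t₀ G₀ Q' → Q' ⊆ Finset.range n →
          P ∈ CQ V C Q' ∩ cyl t G := fun Q' => by
        by_cases e : Alive V C t₀ G₀ Q' ∧ Q' ⊆ Finset.range n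
        · obtain ⟨P, hP⟩ := hal Q' e.2 e.1
          exact ⟨P, fun _ _ => hP⟩
        · exact ⟨fun _ _ => true, fun h1 h2 => absurd ⟨h1, h2⟩ e⟩
      choose W hW using hex
      have hk : ∀ i, ∃ k, i < r → k < n ∧ ∃ y, s i ≤ y ∧ y < s (i + 1) ∧ E (W (Q i)) k y := fun i => by
        by_cases e : i < r
        · obtain ⟨k, hk, h⟩ := hhit i e (W (Q i)) (hW (Q i) (hQ i e) (hQn i e))
          exact ⟨k, fun _ => ⟨hk, h⟩⟩
        · exact ⟨0, fun h => absurd h e⟩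
      choose k hk using hk
      obtain ⟨i, j, hij, hj, hSh, hc⟩ := hr fun i => if e : Q i ∈ (Finset.range n).powerset ∧ k i < n then
        Sum.inl (⟨Q i, e.1⟩, ⟨k i, e.2⟩) else Sum.inr ()
      have hi := hij.trans hj
      have ei : Q i ∈ (Finset.range n).powerset ∧ k i < n := ⟨Finset.mem_powerset.2 (hQn i hi), (hk i hi).1⟩
      have ej : Q j ∈ (Finset.range n).powerset ∧ k j < n := ⟨Finset.mem_powerset.2 (hQn j hj), (hk j hj).1⟩
      rw [dif_pos ei, dif_pos ej, Sum.inl.injEq, Prod.mk.injEq, Subtype.mk.injEq, Fin.mk.injEq] at hc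
      obtain ⟨y, hy1, hy2, hE⟩ := (hk i hi).2
      obtain ⟨y', hy1', hy2', hE'⟩ := (hk j hj).2
      rw [← hc.1, ← hc.2] at hE'
      have m1 := hI.mono (show i + 1 ≤ j from hij)
      have m2 := hI.mono (show j + 1 ≤ r from hj)
      rw [hI.sj] at m2
      refine hE'.2 y' le_rfl y (by omega) hE.1 hE'.1 ?_
      exact ((hW (Q i) (hQ i hi) (hQn i hi)).2 y y' (by omega) (by omega)).2
        ((hI.bl i j hij hj y y' hy1 hy2 hy1' hy2').2 hSh)
    · push Not at hal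
      obtain ⟨Q', hQ'n, hQ'1, hQ'2⟩ := hal
      have hsub : (Finset.range n).powerset.filter (Alive V C t G) ⊆
          (Finset.range n).powerset.filter (Alive V C t₀ G₀) := fun Q hQ => by
        have := Finset.mem_filter.1 hQ
        exact Finset.mem_filter.2 ⟨this.1, this.2.mono (inter_subset_inter_right _ hI.leg.cyl_sub)⟩
      have hlt : ((Finset.range n).powerset.filter (Alive V C t G)).card <
          ((Finset.range n).powerset.filter (Alive V C t₀ G₀)).card :=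
        Finset.card_lt_card ⟨hsub, fun h => hQ'2 (Finset.mem_filter.1 (h (Finset.mem_filter.2
          ⟨Finset.mem_powerset.2 hQ'n, hQ'1⟩))).2⟩
      obtain ⟨t₁, G₁, T, C', ho⟩ := ih t G (fun a ha => (hL a ha).trans_le hI.leg.le) (by omega)
        fun t' G' h => h2 t' G' (hI.leg.trans h hL)
      exact hcon ⟨t₁, G₁, T, C', ho.hb, hI.leg.le.trans ho.ht, ho.hT, ho.sub, ho.cl,
        fun t' G' h => ⟨hI.leg.trans (ho.leg t' G' h).1 hL, (ho.leg t' G' h).2⟩, ho.col, ho.fact⟩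

end Pool.Agent.H653.Br
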