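import Pool.Agent.H653.Rec
import Pool.Agent.H653.Br.Clo
import Pool.Agent.H653.Br.Defs

set_option autoImplicit false

namespace Pool.Agent.H653.Br

open Filter Pool.Agent.H40.Bsig Pool.Agent.H653 RanDefs BrDefs CD

/-- The data at all coordinates. -/
structure Da where
  B : ℕ → ℕ → ℕ
  P : ℕ → X
  B0 : ∀ᶠ m in U, m ≤ B 0 m
  step : ∀ j, ∀ᶠ m in U, tf (B j m) ≤ B (j + 1) m
  cc : ∀ m, P m ∈ Cc
  clique : ∀ m, ∀ K : Finset ℕ, (∀ a ∈ K, ∀ b ∈ K, a < b → P m 0 (sp a b) = true) → K.card ≤ 2 ^ m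
  col : ∀ j, ∀ᶠ m in U, ∀ k ≤ B j m, ∀ y, B (j + 1) m ≤ y → ¬ E (P m) k y
  fact : ∀ j, ∀ᶠ m in U, ∀ q ≤ B j m, (∀ w, ¬ V q w (P m)) ∨ V q (B (j + 1) m) (P m)

namespace Da

variable (q : Da)

/-- The cut. -/
def cd : CD where
  B := q.B
  B0 := q.B0
  step := fun j => (q.step j).mono fun _ e => (Nat.le_add_left _ _).trans e
  R := fun m c x => q.P m c x = true

/-- The model. -/
noncomputable abbrev M : Mod where
  N := q.cd.I
  zero := q.cd.M.zero
  one := q.cd.M.one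
  add := q.cd.M.add
  mul := q.cd.M.mul
  lt := q.cd.M.lt
  S := {Z | ∃ c : q.cd.I, Z = CD.Zs c}

variable {q}

theorem dom {f h : ℕ → ℕ} (a : q.cd.Bd f) (b : q.cd.Bd h) : q.cd.Bd fun m => bb (f m) (h m) := by
  obtain ⟨j, hj⟩ := a.max b
  exact ⟨j + 1, (hj.and (q.step j)).mono fun m e =>
    ((Nat.le_add_left _ _).trans (use_le_tf ((le_max_left _ _).trans e.1) ((le_max_right _ _).trans e.1))).trans e.2⟩

theorem bd_pow {f : ℕ → ℕ} (h : q.cd.Bd f) : q.cd.Bd fun m => 2 ^ f m :=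
  (dom h h).mono (Eventually.of_forall fun _ => Nat.le_add_left _ _)

theorem settle {f : ℕ → ℕ} (h : q.cd.Bd f) :
    (∀ᶠ m in U, ∀ w, ¬ V (f m) w (q.P m)) ∨ ∃ z, q.cd.Bd z ∧ ∀ᶠ m in U, V (f m) (z m) (q.P m) := by
  obtain ⟨j, hj⟩ := h
  have : ∀ᶠ m in U, (∀ w, ¬ V (f m) w (q.P m)) ∨ V (f m) (q.B (j + 1) m) (q.P m) := by
    filter_upwards [hj, q.fact j] with m a b
    exact b _ a
  exact (ae_or.1 this).imp id fun h => ⟨_, bd_B (j + 1), h⟩

theorem ev_eq (t : Tm) (v : ℕ → q.cd.I) : t.ev q.M v = t.ev q.cd.M v := by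
  induction t with
  | var i => rfl
  | zero => rfl
  | one => rfl
  | add s t a b => simp only [Tm.ev, a, b]
  | mul s t a b => simp only [Tm.ev, a, b]

theorem sat_eq {θ : Fm} (hθ : Bdd θ) : ∀ (v : ℕ → q.cd.I) (V : ℕ → Set q.cd.I),
    Sat q.M θ v V ↔ Sat q.cd.M θ v V := by
  induction hθ with
  | eq s t => exact fun v V => by simp only [Sat, ev_eq]
  | lt s t => exact fun v V => by simp only [Sat, ev_eq]
  | mem s i => exact fun v V => by simp only [Sat, ev_eq]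
  | neg _ ih => exact fun v V => not_congr (ih v V)
  | and _ _ a b => exact fun v V => and_congr (a v V) (b v V)
  | ball t _ ih =>
    intro v V
    simp only [Sat, ev_eq]
    exact forall₂_congr fun x _ => ih (cons x v) V

theorem losM {θ : Fm} (hθ : Bdd θ) {W : ℕ → Set q.cd.I} {c : ℕ → q.cd.I} (hW : ∀ i, W i = CD.Zs (c i))
    {b : ℕ → ℕ} (hb : ∀ i < θ.sup, ∀ᶠ m in U, dec (b m) i = rep (c i) m) (v : ℕ → q.cd.I) (u : ℕ → ℕ → ℕ)
    (hu : ∀ i < θ.sup, ∀ᶠ m in U, rep (v i) m = u m i) :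
    Sat q.M θ v W ↔ ∀ᶠ m in U, Sat std θ (u m) (cols (q.P m) (b m)) := by
  rw [sat_eq hθ, los hθ (W := fun m i => {t | q.cd.R m (rep (c i) m) t}) (fun i t => by rw [hW]; rfl) v
    (fun m i => rep (v i) m) fun i => rfl_ae]
  have h7 : ∀ᶠ m in U, ∀ i ∈ Set.Iio θ.sup, rep (v i) m = u m i ∧ dec (b m) i = rep (c i) m :=
    (eventually_all_finite (Set.finite_Iio _)).2 fun i (hi : i < _) => (hu i hi).and (hb i hi)
  refine eventually_congr (h7.mono fun m e => sat_congr θ (fun i hi => (e i hi).1) fun i hi => ?_)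
  show {t | q.P m (rep (c i) m) t = true} = {t | q.P m (dec (b m) i) t = true}
  rw [(e i hi).2]

theorem exM {θ : Fm} (hθ : Bdd θ) {W : ℕ → Set q.cd.I} {c : ℕ → q.cd.I} (hW : ∀ i, W i = CD.Zs (c i))
    {b : ℕ → ℕ} (hb : ∀ i < θ.sup, ∀ᶠ m in U, dec (b m) i = rep (c i) m) (hb' : q.cd.Bd b) (v : ℕ → q.cd.I)
    {a : ℕ → ℕ} (ha' : q.cd.Bd a) (ha : ∀ i < θ.sup, ∀ᶠ m in U, dec (a m) i = rep (v i) m) :
    Sat q.M θ.ex v W ↔ ∀ᶠ m in U, ∃ w, Sat std θ (cons w (dec (a m))) (cols (q.P m) (b m)) := by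
  have key : ∀ w : q.cd.I, Sat q.M θ (cons w v) W ↔ ∀ᶠ m in U,
      Sat std θ (cons (rep w m) (dec (a m))) (cols (q.P m) (b m)) := fun w => by
    refine losM hθ hW hb _ (fun m => cons (rep w m) (dec (a m))) ?_
    rintro (_ | i) hi
    · exact rfl_ae
    · exact (ha i (by omega)).mono fun m e => e.symm
  refine ⟨fun ⟨w, hw⟩ => ((key w).1 hw).mono fun m e => ⟨_, e⟩, fun h => ?_⟩
  rcases settle ((bd_const (p := q.cd) 0).pair ((bd_const (cod (.inl θ))).pair (ha'.pair hb'))) with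
    h' | ⟨z, hz, h'⟩
  · obtain ⟨m, ⟨w, hw⟩, a2⟩ := (h.and h').exists
    refine absurd (Or.inl ?_) (a2 w)
    simp only [Nat.unpair_pair]
    exact ⟨trivial, w, le_rfl, (TS_cod hθ _ _ _).2 hw⟩
  · have h2 : ∀ᶠ m in U, ∃ w, w ≤ z m ∧ Sat std θ (cons w (dec (a m))) (cols (q.P m) (b m)) := by
      filter_upwards [h'] with m e
      simp only [V, Nat.unpair_pair] at e
      rcases e with ⟨_, w, h1, h2⟩ | ⟨e, _⟩ | ⟨e, _⟩
      · exact ⟨w, h1, (TS_cod hθ _ _ _).1 h2⟩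
      · omega
      · omega
    obtain ⟨f, hf⟩ := ae_choose h2
    obtain ⟨w, hw⟩ := ex_rep (hz.mono (hf.mono fun _ e => e.1))
    exact ⟨w, (key w).2 ((hf.and hw).mono fun m e => e.2 ▸ e.1.2)⟩

theorem cons_dec {n : ℕ} {v : ℕ → q.cd.I} {a : ℕ → ℕ} (ha : ∀ i < n, ∀ᶠ m in U, dec (a m) i = rep (v i) m)
    (x : q.cd.I) : ∀ i < n, ∀ᶠ m in U, dec (Nat.pair (rep x m) (a m)) i = rep (cons x v i) m := by
  simp only [dec_pair]
  rintro (_ | i) hi
  · exact rfl_ae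
  · exact ha i (by omega)

theorem ind : Ind q.M 1 := by
  rintro _ ⟨θ, hθ, rfl⟩ v W hW h0 h1 x
  choose c hc using hW
  obtain ⟨b, hb', hb⟩ := code θ.sup c
  obtain ⟨a, ha', ha⟩ := code θ.sup v
  have key : ∀ x : q.cd.I, Sat q.M θ.ex (cons x v) W ↔ ∀ᶠ m in U,
      ∃ w, Sat std θ (cons w (cons (rep x m) (dec (a m)))) (cols (q.P m) (b m)) := fun x => by
    rw [exM hθ hc hb hb' (cons x v) ((bd_rep x).pair ha') (cons_dec ha x)]
    simp only [dec_pair]
  simp only [key] at h0 h1 ⊢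
  exact int_ind (fun m t => ∃ w, Sat std θ (cons w (cons t (dec (a m)))) (cols (q.P m) (b m))) h0 h1 x

theorem bnd : Bnd q.M 2 := by
  rintro _ ⟨_, ⟨θ, hθ, rfl⟩, rfl⟩ v W hW a h
  choose c hc using hW
  obtain ⟨b, hb', hb⟩ := code θ.sup c
  obtain ⟨d, hd', hd⟩ := code θ.sup v
  have key : ∀ w y x : q.cd.I, Sat q.M θ.all (cons w (cons y (cons x v))) W ↔ ∀ᶠ m in U,
      ¬ ∃ z, Sat std θ.neg (cons z (cons (rep w m) (cons (rep y m) (cons (rep x m) (dec (d m))))))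
        (cols (q.P m) (b m)) := fun w y x => by
    have := exM (Bdd.neg hθ) hc (b := b) hb hb' (cons w (cons y (cons x v)))
      (((bd_rep w).pair ((bd_rep y).pair ((bd_rep x).pair hd'))))
      (cons_dec (n := θ.sup) (cons_dec (cons_dec hd x) y) w)
    simp only [dec_pair] at this
    rw [ae_not, ← this]
    exact not_exists_not.symm
  obtain ⟨b', hb''⟩ := int_coll (fun m x r => ¬ ∃ z, Sat std θ.neg (cons z (cons r.unpair.2
      (cons r.unpair.1 (cons x (dec (d m)))))) (cols (q.P m) (b m))) a fun x hx => by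
    obtain ⟨y, w, h5⟩ := h x hx
    obtain ⟨r, hr⟩ := ex_rep ((bd_rep y).pair (bd_rep w))
    exact ⟨r, (((key w y x).1 h5).and hr).mono fun m e => by simpa [e.2] using e.1⟩
  refine ⟨b', fun x hx => ?_⟩
  obtain ⟨r, h5, h6⟩ := hb'' x hx
  obtain ⟨y, hy⟩ := ex_rep ((bd_rep r).mono (Eventually.of_forall fun m => Nat.unpair_left_le _))
  obtain ⟨w, hw⟩ := ex_rep ((bd_rep r).mono (Eventually.of_forall fun m => Nat.unpair_right_le _))
  exact ⟨y, (h5.and hy).mono fun m e => e.2 ▸ (Nat.unpair_left_le _).trans_lt e.1, w,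
    (key w y x).2 ((h6.and (hy.and hw)).mono fun m e => by rw [e.2.1, e.2.2]; exact e.1)⟩

theorem dca : DCA q.M := by
  rintro _ _ ⟨θ, hθ, rfl⟩ ⟨θ', hθ', rfl⟩ v W hW h
  choose c hc using hW
  obtain ⟨b, hb', hb⟩ := code (max θ.sup θ'.sup) c
  obtain ⟨a, ha', ha⟩ := code (max θ.sup θ'.sup) v
  have k1 : ∀ w x : q.cd.I, Sat q.M θ (cons w (cons x v)) W ↔ ∀ᶠ m in U,
      Sat std θ (cons (rep w m) (cons (rep x m) (dec (a m)))) (cols (q.P m) (b m)) := fun w x => by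
    refine losM hθ hc (fun i hi => hb i (lt_max_of_lt_left hi)) _
      (fun m => cons (rep w m) (cons (rep x m) (dec (a m)))) fun i hi => ?_
    rcases i with _ | _ | i
    · exact rfl_ae
    · exact rfl_ae
    · exact (ha i (lt_max_of_lt_left (by omega))).mono fun m e => e.symm
  have k2 : ∀ w x : q.cd.I, Sat q.M θ' (cons w (cons x v)) W ↔ ∀ᶠ m in U,
      Sat std θ' (cons (rep w m) (cons (rep x m) (dec (a m)))) (cols (q.P m) (b m)) := fun w x => by
    refine losM hθ' hc (fun i hi => hb i (lt_max_of_lt_right hi)) _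
      (fun m => cons (rep w m) (cons (rep x m) (dec (a m)))) fun i hi => ?_
    rcases i with _ | _ | i
    · exact rfl_ae
    · exact rfl_ae
    · exact (ha i (lt_max_of_lt_right (by omega))).mono fun m e => e.symm
  have t1 : ∀ m w x, Th (q.P m) (cod (.inl θ)) (Nat.pair (a m) (b m)) w x ↔
      Sat std θ (cons w (cons x (dec (a m)))) (cols (q.P m) (b m)) := fun m w x => by
    unfold Th
    rw [TS_cod hθ, Nat.unpair_pair]
  have t2 : ∀ m w x, Th (q.P m) (cod (.inl θ')) (Nat.pair (a m) (b m)) w x ↔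
      Sat std θ' (cons w (cons x (dec (a m)))) (cols (q.P m) (b m)) := fun m w x => by
    unfold Th
    rw [TS_cod hθ', Nat.unpair_pair]
  have hbd := (bd_const (p := q.cd) (cod (.inl θ))).pair ((bd_const (cod (.inl θ'))).pair (ha'.pair hb'))
  rcases settle ((bd_const (p := q.cd) 1).pair hbd) with h' | ⟨z, hz, h'⟩
  swap
  · have h2 : ∀ᶠ m in U, ∃ x, x ≤ z m ∧ ∃ w₁, w₁ ≤ z m ∧ ∃ w₂, w₂ ≤ z m ∧
        Sat std θ (cons w₁ (cons x (dec (a m)))) (cols (q.P m) (b m)) ∧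
        ¬ Sat std θ' (cons w₂ (cons x (dec (a m)))) (cols (q.P m) (b m)) := by
      filter_upwards [h'] with m e
      simp only [V, Nat.unpair_pair] at e
      rcases e with ⟨e, _⟩ | ⟨_, x, h1, w₁, h2, w₂, h3, h4, h5⟩ | ⟨e, _⟩
      · omega
      · exact ⟨x, h1, w₁, h2, w₂, h3, (t1 _ _ _).1 h4, fun h => h5 ((t2 _ _ _).2 h)⟩
      · omega
    obtain ⟨fx, hfx⟩ := ae_choose h2
    obtain ⟨f₁, hf₁⟩ := ae_choose (hfx.mono fun _ e => e.2)
    obtain ⟨f₂, hf₂⟩ := ae_choose (hf₁.mono fun _ e => e.2)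
    obtain ⟨x, hx⟩ := ex_rep (hz.mono (hfx.mono fun _ e => e.1))
    obtain ⟨w₁, hw₁⟩ := ex_rep (hz.mono (hf₁.mono fun _ e => e.1))
    obtain ⟨w₂, hw₂⟩ := ex_rep (hz.mono (hf₂.mono fun _ e => e.1))
    have e1 : Sat q.M θ.ex (cons x v) W := ⟨w₁, (k1 w₁ x).2 (by
      filter_upwards [hf₂, hx, hw₁] with m a1 a2 a3
      rw [a2, a3]
      exact a1.2.1)⟩
    have e2 := (k2 w₂ x).1 ((h x).1 e1 w₂)
    obtain ⟨m, a1, a2, a3, a4⟩ := (e2.and (hf₂.and (hx.and hw₂))).exists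
    rw [a3, a4] at a1
    exact absurd a1 a2.2.2
  · obtain ⟨i, hi⟩ := ex_rep (((bd_const (p := q.cd) 0).pair hbd).add (bd_const 1))
    have key : ∀ᶠ m in U, ∀ x w, (Sat std θ (cons w (cons x (dec (a m)))) (cols (q.P m) (b m)) →
        q.P m (rep i m) x = true) ∧ (q.P m (rep i m) x = true →
          Sat std θ' (cons w (cons x (dec (a m)))) (cols (q.P m) (b m))) := by
      filter_upwards [h', hi] with m e1 e2 x w
      have e3 := (q.cc m (Nat.pair 0 (Nat.pair (cod (.inl θ)) (Nat.pair (cod (.inl θ'))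
        (Nat.pair (a m) (b m))))) (max x w)).1
      simp only [Nat.unpair_pair, t1, t2, true_imp_iff] at e3
      rw [e2]
      refine e3 (fun x' hx' w' hw' w'' hw'' h5 => ?_) x (le_max_left _ _) w (le_max_right _ _)
      by_contra h6
      refine e1 (max x w) (Or.inr (Or.inl ?_))
      simp only [Nat.unpair_pair, t1, t2]
      exact ⟨trivial, x', hx', w', hw', w'', hw'', h5, h6⟩
    refine ⟨i, Set.ext fun x => ?_⟩
    refine ⟨fun ⟨w, hw⟩ => ?_, fun hx => ?_⟩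
    · show ∀ᶠ m in U, q.P m (rep i m) (rep x m) = true
      filter_upwards [(k1 w x).1 hw, key] with m e1 e2
      exact (e2 _ _).1 e1
    · refine (h x).2 fun w => (k2 w x).2 ?_
      have hx' : ∀ᶠ m in U, q.P m (rep i m) (rep x m) = true := hx
      filter_upwards [hx', key] with m e1 e2
      exact (e2 _ _).2 e1

theorem rca : RCA0 q.M := ⟨CD.basic (p := q.cd), ⟨_, q.cd.M.zero, rfl⟩, ind, dca⟩

end Da

end Pool.Agent.H653.Br
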