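import Mathlib
import Pool.Graph.R_pool_sql_team_ae5b0c61.H40.Bsig3

set_option autoImplicit false

namespace Pool.Agent.H653.Br

open Set
open Pool.Agent.H40.Bsig (sp)

/-- Sequences of sets of natural numbers (the columns). -/
abbrev X : Type := ℕ → ℕ → Bool

/-- `A` depends only on a finite part of the sequence. -/
def Loc (A : X → Prop) : Prop := ∃ N, ∀ P P' : X, (∀ i < N, ∀ x < N, P i x = P' i x) → A P → A P'

theorem isOpen_agree (P : X) (N : ℕ) : IsOpen {P' : X | ∀ i < N, ∀ x < N, P i x = P' i x} := by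
  have h : {P' : X | ∀ i < N, ∀ x < N, P i x = P' i x} =
      ⋂ i ∈ Iio N, ⋂ x ∈ Iio N, {P' : X | P i x = P' i x} := by
    ext P'
    simp
  rw [h]
  refine (finite_Iio N).isOpen_biInter fun i _ => (finite_Iio N).isOpen_biInter fun x _ => ?_
  have hc : Continuous fun P' : X => P' i x := (continuous_apply x).comp (continuous_apply i)
  have := (isOpen_discrete ({P i x} : Set Bool)).preimage hc
  convert this using 1
  ext P'
  simp [eq_comm]

namespace Loc

variable {A B : X → Prop}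

theorem isOpen (h : Loc A) : IsOpen {P | A P} := by
  obtain ⟨N, hN⟩ := h
  refine isOpen_iff_forall_mem_open.2 fun P hP => ⟨_, fun P' hP' => hN P P' hP' hP, isOpen_agree P N,
    fun _ _ _ _ => rfl⟩

theorem not (h : Loc A) : Loc fun P => ¬ A P := by
  obtain ⟨N, hN⟩ := h
  exact ⟨N, fun P P' e a b => a (hN P' P (fun i hi x hx => (e i hi x hx).symm) b)⟩

theorem isClosed (h : Loc A) : IsClosed {P | A P} := by
  have := h.not.isOpen
  rw [← isOpen_compl_iff]
  exact this

theorem and (h : Loc A) (h' : Loc B) : Loc fun P => A P ∧ B P := by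
  obtain ⟨N, hN⟩ := h
  obtain ⟨N', hN'⟩ := h'
  exact ⟨max N N', fun P P' e a => ⟨hN P P' (fun i hi x hx => e i (lt_max_of_lt_left hi) x
    (lt_max_of_lt_left hx)) a.1, hN' P P' (fun i hi x hx => e i (lt_max_of_lt_right hi) x
    (lt_max_of_lt_right hx)) a.2⟩⟩

theorem congr (h : Loc A) (e : ∀ P, A P ↔ B P) : Loc B := by
  obtain ⟨N, hN⟩ := h
  exact ⟨N, fun P P' e' a => (e _).1 (hN P P' e' ((e _).2 a))⟩

theorem or (h : Loc A) (h' : Loc B) : Loc fun P => A P ∨ B P :=
  (h.not.and h'.not).not.congr fun P => by tauto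

theorem imp (h : Loc A) (h' : Loc B) : Loc fun P => A P → B P :=
  (h.and h'.not).not.congr fun P => by tauto

theorem const (p : Prop) : Loc fun _ => p := ⟨0, fun _ _ _ h => h⟩

theorem at' (i x : ℕ) : Loc fun P => P i x = true :=
  ⟨max (i + 1) (x + 1), fun P P' e h => by
    show P' i x = true
    rw [← e i (lt_max_of_lt_left i.lt_succ_self) x (lt_max_of_lt_right x.lt_succ_self)]
    exact h⟩

theorem ball {A : ℕ → X → Prop} (n : ℕ) (h : ∀ k < n, Loc (A k)) : Loc fun P => ∀ k < n, A k P := by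
  induction n with
  | zero => exact (const True).congr fun P => by simp
  | succ n ih =>
    refine ((ih fun k hk => h k (hk.trans n.lt_succ_self)).and (h n n.lt_succ_self)).congr fun P => ?_
    exact ⟨fun a k hk => (Nat.lt_succ_iff_lt_or_eq.1 hk).elim (a.1 k) fun e => e ▸ a.2,
      fun a => ⟨fun k hk => a k (hk.trans n.lt_succ_self), a n n.lt_succ_self⟩⟩

theorem balle {A : ℕ → X → Prop} (n : ℕ) (h : ∀ k ≤ n, Loc (A k)) : Loc fun P => ∀ k ≤ n, A k P :=
  (ball (n + 1) fun k hk => h k (Nat.lt_succ_iff.1 hk)).congr fun P => by simp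

theorem bex {A : ℕ → X → Prop} (n : ℕ) (h : ∀ k ≤ n, Loc (A k)) : Loc fun P => ∃ k ≤ n, A k P :=
  (balle n fun k hk => (h k hk).not).not.congr fun P => by push Not; exact Iff.rfl

end Loc

/-- Compactness. -/
theorem cpt {C : ℕ → Set X} (h1 : ∀ n, IsClosed (C n)) (h2 : ∀ n, C (n + 1) ⊆ C n)
    (h3 : ∀ n, (C n).Nonempty) : ∃ P, ∀ n, P ∈ C n := by
  have := IsCompact.nonempty_iInter_of_sequence_nonempty_isCompact_isClosed C h2 h3
    (h1 0).isCompact h1
  obtain ⟨P, hP⟩ := this
  exact ⟨P, fun n => mem_iInter.1 hP n⟩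

/-- Uniform bound. -/
theorem cpt' {K : Set X} (hK : IsClosed K) {A : ℕ → X → Prop} (h1 : ∀ n, IsOpen {P | A n P})
    (h2 : ∀ n P, A n P → A (n + 1) P) (h3 : ∀ P ∈ K, ∃ n, A n P) : ∃ n, ∀ P ∈ K, A n P := by
  by_contra hc
  push Not at hc
  obtain ⟨P, hP⟩ := cpt (C := fun n => K ∩ {P | ¬ A n P})
    (fun n => hK.inter (isOpen_compl_iff.1 (by
      convert h1 n using 1
      ext P
      simp)))
    (fun n P hP => ⟨hP.1, fun a => hP.2 (h2 n P a)⟩) fun n => by
      obtain ⟨P, a, b⟩ := hc n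
      exact ⟨P, a, b⟩
  obtain ⟨n, hn⟩ := h3 P (hP 0).1
  exact (hP n).2 hn

/-- `y` is in the `k`-th column and this column is independent up to `y` (in the graph that is
coded by the column `0`). -/
def E (P : X) (k y : ℕ) : Prop :=
  P k y = true ∧ ∀ b ≤ y, ∀ a < b, P k a = true → P k b = true → ¬ P 0 (sp a b) = true

theorem E_loc (k y : ℕ) : Loc fun P => E P k y :=
  (Loc.at' k y).and (Loc.balle y fun b _ => Loc.ball b fun a _ =>
    (Loc.at' k a).imp ((Loc.at' k b).imp (Loc.at' 0 (sp a b)).not))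

end Pool.Agent.H653.Br
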